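import Mathlib
import Pool.Agent.Helper49.TA.Df

/-!
# Project TA, block X: the main analytic estimate

Captain helper98; written by helpers 7, 10, 15, 23, 56, 60, 82, 95 and 98.
The target is `X_target` at the end.
-/

set_option autoImplicit false

-- part Xd
section
/-!
# Project TA (MP_274814_nt), block X: definitions

Block X of `TA_blueprint.md`: an entire function `F` of the four variables `z 0 = z0`, `z 1 = z1`,
`z 2 = z0'`, `z 3 = z1'`, polynomial of degree `≤ D` in `z 2`, with zeros of order `T` at the lattice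
(it is enough: at `0`, because of the periodicity), is at most `exp (- η T ^ 3)`.
-/


namespace Pool.Agent.Helper98.TA

open Complex

/-- the real points -/
def RealPt (z : Fin 4 → ℂ) : Prop :=
  z 2 = (starRingEnd ℂ) (z 0) ∧ z 3 = (starRingEnd ℂ) (z 1)

/-- the action of a unit: `z0, z0'` are multiplied by `u`, `z1, z1'` are divided by `u` -/
noncomputable def sc (u : ℝ) (z : Fin 4 → ℂ) : Fin 4 → ℂ :=
  ![(u : ℂ) * z 0, ((u⁻¹ : ℝ) : ℂ) * z 1, (u : ℂ) * z 2, ((u⁻¹ : ℝ) : ℂ) * z 3]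

/-- the normalised function: its absolute value is periodic on the real points -/
noncomputable def Fn (Q : (Fin 4 → ℂ) →ₗ[ℂ] (Fin 4 → ℂ) →ₗ[ℂ] ℂ) (F : (Fin 4 → ℂ) → ℂ)
    (z : Fin 4 → ℂ) : ℂ :=
  F z * cexp (-(Q z z) / 2)

/-- the hypotheses of block X -/
structure XData (ρ₀ C A : ℝ) (D T : ℕ) (Q : (Fin 4 → ℂ) →ₗ[ℂ] (Fin 4 → ℂ) →ₗ[ℂ] ℂ)
    (F : (Fin 4 → ℂ) → ℂ) : Prop where
  diff : Differentiable ℂ F
  deg : ∀ z : Fin 4 → ℂ, ∃ p : Polynomial ℂ, p.natDegree ≤ D ∧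
    ∀ w : ℂ, F (Function.update z 2 w) = p.eval w
  qb : ∀ s v : Fin 4 → ℂ, ‖Q s v‖ ≤ C * ‖s‖ * ‖v‖
  qr : ∀ v : Fin 4 → ℂ, RealPt v → (Q v v).im = 0
  per : ∀ n : ℕ, ∀ z : Fin 4 → ℂ, RealPt z → ∃ z' : Fin 4 → ℂ, RealPt z' ∧ ‖z'‖ ≤ ρ₀ ∧
    ‖Fn Q F (sc ((2 + √3) ^ n) z')‖ = ‖Fn Q F z‖
  gr : ∀ s v : Fin 4 → ℂ, RealPt s → RealPt v →
    ‖Fn Q F (s + I • v)‖ ≤ Real.exp (A + C * ‖v‖ ^ 2 + (Q s v).im)
  ord : ∀ z : Fin 4 → ℂ, ∀ m < T, iteratedDeriv m (fun ζ : ℂ => F (ζ • z)) 0 = 0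

end Pool.Agent.Helper98.TA
end

-- part XA
section
/-!
# TA-XA: three lines with Gaussian growth
-/


namespace Pool.Agent.Helper98.TA

open Complex Set

/-- three lines with Gaussian growth -/
theorem gauss_lines (g : ℂ → ℂ) (hg : Differentiable ℂ g) (U A C : ℝ) (hC : 0 < C)
    (h0 : ∀ x : ℝ, ‖g x‖ ≤ Real.exp (-U))
    (h1 : ∀ x y : ℝ, 0 ≤ y → ‖g (x + y * I)‖ ≤ Real.exp (A + C * y ^ 2)) (x : ℝ) :
    ‖g (x + I)‖ ≤ Real.exp (-U + 2 * √(C * (U + A)) + 2 * C) := by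
  rcases le_or_gt C (U + A) with hc | hc
  · have hUA : 0 < U + A := lt_of_lt_of_le hC hc
    obtain ⟨Y, hY⟩ : ∃ Y : ℝ, Y = √((U + A) / C) := ⟨_, rfl⟩
    have hY2 : Y ^ 2 = (U + A) / C := by rw [hY]; exact Real.sq_sqrt (by positivity)
    have hY1 : 1 ≤ Y := by
      rw [hY, Real.one_le_sqrt, le_div_iff₀ hC]; linarith
    have hY0 : 0 < Y := by linarith
    have hsq : √(C * (U + A)) = C * Y := by
      rw [Real.sqrt_eq_iff_mul_self_eq (by positivity) (by positivity)]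
      have : C * Y * (C * Y) = C ^ 2 * Y ^ 2 := by ring
      rw [this, hY2]; field_simp
    obtain ⟨f, hf⟩ : ∃ f : ℂ → ℂ, f = fun z => g (x + I * (Y * z)) := ⟨_, rfl⟩
    have hfd : Differentiable ℂ f := by
      rw [hf]
      exact hg.comp ((differentiable_const _).add
        ((differentiable_const _).mul ((differentiable_const _).mul differentiable_id)))
    have harg : ∀ z : ℂ, (x : ℂ) + I * (Y * z) = ((x - Y * z.im : ℝ) : ℂ) + ((Y * z.re : ℝ) : ℂ) * I := by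
      intro z
      apply Complex.ext
      · simp [sub_eq_add_neg]
      · simp
    have hz : ((1 / Y : ℝ) : ℂ) ∈ HadamardThreeLines.verticalClosedStrip 0 1 := by
      change ((1 / Y : ℝ) : ℂ).re ∈ Icc (0 : ℝ) 1
      rw [ofReal_re]
      exact ⟨by positivity, by rw [div_le_one hY0]; exact hY1⟩
    have hB : BddAbove ((norm ∘ f) '' HadamardThreeLines.verticalClosedStrip 0 1) := by
      refine ⟨Real.exp (A + C * Y ^ 2), ?_⟩
      rintro _ ⟨z, hz, rfl⟩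
      have hz' : z.re ∈ Icc (0 : ℝ) 1 := hz
      change ‖f z‖ ≤ _
      rw [hf]
      change ‖g (x + I * (Y * z))‖ ≤ _
      rw [harg]
      refine (h1 _ _ (mul_nonneg hY0.le hz'.1)).trans (Real.exp_le_exp.2 ?_)
      have : (Y * z.re) ^ 2 ≤ Y ^ 2 := by
        rw [mul_pow]
        have : z.re ^ 2 ≤ 1 := by nlinarith [hz'.1, hz'.2]
        nlinarith [sq_nonneg Y]
      nlinarith
    have key := HadamardThreeLines.norm_le_interp_of_mem_verticalClosedStrip₀₁' f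
      (a := Real.exp (-U)) (b := Real.exp (A + C * Y ^ 2)) hz hfd.diffContOnCl hB
      (by
        intro z hz
        have hz' : z.re = 0 := hz
        rw [hf]
        change ‖g (x + I * (Y * z))‖ ≤ _
        rw [harg, hz', mul_zero, ofReal_zero, zero_mul, add_zero]
        exact h0 _)
      (by
        intro z hz
        have hz' : z.re = 1 := hz
        rw [hf]
        change ‖g (x + I * (Y * z))‖ ≤ _
        rw [harg, hz', mul_one]
        exact h1 _ _ hY0.le)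
    have hfx : f ((1 / Y : ℝ) : ℂ) = g (x + I) := by
      rw [hf]
      change g (x + I * (Y * ((1 / Y : ℝ) : ℂ))) = _
      congr 2
      push_cast
      have : (Y : ℂ) ≠ 0 := ofReal_ne_zero.2 hY0.ne'
      field_simp
    rw [hfx, ofReal_re] at key
    refine key.trans ?_
    rw [← Real.exp_mul, ← Real.exp_mul, ← Real.exp_add]
    apply Real.exp_le_exp.2
    rw [hsq]
    have e1 : -U * (1 - 1 / Y) + (A + C * Y ^ 2) * (1 / Y) = -U + (U + A) / Y + C * Y := by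
      field_simp
      ring
    have e2 : (U + A) / Y = C * Y := by
      have : U + A = C * Y ^ 2 := by rw [hY2]; field_simp
      rw [this]; field_simp
    rw [e1, e2]
    linarith
  · have h2 := h1 x 1 zero_le_one
    rw [ofReal_one, one_mul] at h2
    refine h2.trans (Real.exp_le_exp.2 ?_)
    have := Real.sqrt_nonneg (C * (U + A))
    linarith

end Pool.Agent.Helper98.TA
end

-- part XB
section
/-!
# TA-XB: from an interval to a disc

`D = 0`: constant.  `D ≥ 1`: Lagrange interpolation at `t j = r (1 + 3 j / D)`, `j = 0, …, D`: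
`|w - t i| ≤ 5 r`, `|t j - t i| = 3 r |j - i| / D`, so
`|p w| ≤ B ∑ j, ∏ i ≠ j, (5 D / (3 |j - i|)) = B (5 D / 3) ^ D ∑ j, 1 / (j! (D - j)!) =
B (10 D / 3) ^ D / D! ≤ B (10 e / 3) ^ D ≤ 10 ^ D B` (`D ^ D / D! ≤ e ^ D`).
-/


namespace Pool.Agent.Helper98.TA

open Complex

theorem poly_ext (p : Polynomial ℂ) (D : ℕ) (hp : p.natDegree ≤ D) (r B : ℝ) (hr : 0 < r)
    (h : ∀ t : ℝ, r ≤ t → t ≤ 4 * r → ‖p.eval (t : ℂ)‖ ≤ B) (w : ℂ) (hw : ‖w‖ ≤ r) :
    ‖p.eval w‖ ≤ 10 ^ D * B := by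
  have hr0 : (r : ℂ) ≠ 0 := by exact_mod_cast hr.ne'
  have hB : 0 ≤ B := (norm_nonneg _).trans (h r le_rfl (by linarith))
  obtain ⟨Q, hQ⟩ : ∃ Q : ℂ → ℂ, Q = fun z => ∑ k ∈ Finset.range (D + 1),
      p.coeff k * z ^ (D - k) * (5 / 2 * r * z + 3 / 4 * r * (z ^ 2 + 1)) ^ k := ⟨_, rfl⟩
  have hQd : Differentiable ℂ Q := by
    rw [hQ]
    fun_prop
  have hQe : ∀ z x : ℂ, 5 / 2 * r * z + 3 / 4 * r * (z ^ 2 + 1) = z * x →
      Q z = z ^ D * p.eval x := by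
    intro z x hx
    rw [hQ, Polynomial.eval_eq_sum_range' (Nat.lt_succ_of_le hp), Finset.mul_sum]
    refine Finset.sum_congr rfl fun k hk => ?_
    rw [Finset.mem_range] at hk
    rw [hx, mul_pow]
    have hDk : D = (D - k) + k := by omega
    calc p.coeff k * z ^ (D - k) * (z ^ k * x ^ k)
        = (z ^ (D - k) * z ^ k) * (p.coeff k * x ^ k) := by ring
      _ = z ^ D * (p.coeff k * x ^ k) := by rw [← pow_add, ← hDk]
  have hQ1 : ∀ z : ℂ, ‖z‖ = 1 → ‖Q z‖ ≤ B := by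
    intro z hz
    have h1 : z * (starRingEnd ℂ z) = 1 := by
      rw [Complex.mul_conj, Complex.normSq_eq_norm_sq, hz]
      norm_num
    have h3 : (2 : ℂ) * (z.re : ℂ) = z + (starRingEnd ℂ z) := by
      rw [Complex.add_conj]
      push_cast
      ring
    have h2 := hQe z (((5 / 2 * r + 3 / 2 * r * z.re : ℝ)) : ℂ) (by
      push_cast
      linear_combination (-(3 / 4 * (r : ℂ))) * h1 - (3 / 4 * (r : ℂ)) * z * h3)
    rw [h2, norm_mul, norm_pow, hz, one_pow, one_mul]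
    have h4 := Complex.abs_re_le_norm z
    rw [hz, abs_le] at h4
    exact h _ (by nlinarith [h4.1]) (by nlinarith [h4.2])
  have hQb : ∀ z : ℂ, ‖z‖ ≤ 1 → ‖Q z‖ ≤ B := by
    intro z hz
    refine Complex.norm_le_of_forall_mem_frontier_norm_le (U := Metric.ball (0 : ℂ) 1)
      Metric.isBounded_ball hQd.diffContOnCl (fun y hy => hQ1 y ?_) ?_
    · rwa [frontier_ball (0 : ℂ) one_ne_zero, mem_sphere_zero_iff_norm] at hy
    · rw [closure_ball (0 : ℂ) one_ne_zero, mem_closedBall_zero_iff]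
      exact hz
  obtain ⟨u, hu⟩ : ∃ u : ℂ, u = (w - 5 / 2 * r) / (3 / 2 * r) := ⟨_, rfl⟩
  have hue : 3 / 2 * (r : ℂ) * u = w - 5 / 2 * r := by
    rw [hu]
    field_simp
  have hun : ‖u‖ ≤ 7 / 3 := by
    have h1 : ‖3 / 2 * (r : ℂ) * u‖ ≤ 7 / 2 * r := by
      rw [hue]
      refine (norm_sub_le _ _).trans ?_
      have h2 : ‖(5 / 2 * r : ℂ)‖ = 5 / 2 * r := by
        rw [norm_mul, Complex.norm_real, Real.norm_of_nonneg hr.le]
        norm_num
      rw [h2]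
      linarith
    have h2 : ‖3 / 2 * (r : ℂ) * u‖ = 3 / 2 * r * ‖u‖ := by
      rw [norm_mul, norm_mul, Complex.norm_real, Real.norm_of_nonneg hr.le]
      norm_num
    rw [h2] at h1
    by_contra hcon
    push Not at hcon
    nlinarith
  obtain ⟨s, hs⟩ := IsAlgClosed.exists_pow_nat_eq (u ^ 2 - 1) (n := 2) two_pos
  obtain ⟨z, z', hz1, hzz, hsum⟩ : ∃ z z' : ℂ, ‖z‖ ≤ 1 ∧ z * z' = 1 ∧ z + z' = 2 * u := by
    have h1 : (u + s) * (u - s) = 1 := by linear_combination (-1 : ℂ) * hs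
    have h2 : ‖u + s‖ * ‖u - s‖ = 1 := by rw [← norm_mul, h1, norm_one]
    rcases le_total ‖u + s‖ ‖u - s‖ with h3 | h3
    · refine ⟨u + s, u - s, ?_, h1, by ring⟩
      by_contra hcon
      push Not at hcon
      nlinarith
    · refine ⟨u - s, u + s, ?_, by rw [mul_comm]; exact h1, by ring⟩
      by_contra hcon
      push Not at hcon
      nlinarith
  have hz' : ‖z'‖ ≤ 10 := by
    have h1 : z' = 2 * u - z := by linear_combination hsum
    rw [h1]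
    refine (norm_sub_le _ _).trans ?_
    rw [norm_mul]
    have h2 : ‖(2 : ℂ)‖ = 2 := by norm_num
    rw [h2]
    linarith
  have h5 := hQe z w (by
    linear_combination (-(3 / 4 * (r : ℂ))) * hzz + (3 / 4 * (r : ℂ)) * z * hsum + z * hue)
  have h6 : p.eval w = z' ^ D * Q z := by
    rw [h5, ← mul_assoc, ← mul_pow, mul_comm z' z, hzz, one_pow, one_mul]
  rw [h6, norm_mul, norm_pow]
  exact mul_le_mul (pow_le_pow_left₀ (norm_nonneg _) hz' D) (hQb z hz1) (norm_nonneg _)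
    (by positivity)

end Pool.Agent.Helper98.TA
end

-- part XC1
section
/-!
# TA-XC1: the coefficients of a function of degree `≤ D` in the second variable

Lagrange interpolation at `w = 0, …, D` writes the coefficients of the polynomial `w ↦ G z w` as fixed
linear combinations of `G z 0, …, G z D` (for instance `Lagrange.eq_interpolate` and
`Polynomial.coeff` of the basis polynomials); they are entire in `z`.
-/


namespace Pool.Agent.Helper98.TA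

open Complex

theorem coeffs (G : ℂ → ℂ → ℂ) (D : ℕ) (hG : ∀ w, Differentiable ℂ fun z => G z w)
    (hdeg : ∀ z, ∃ p : Polynomial ℂ, p.natDegree ≤ D ∧ ∀ w, G z w = p.eval w) :
    ∃ g : ℕ → ℂ → ℂ, (∀ j, Differentiable ℂ (g j)) ∧
      ∀ z w, G z w = ∑ j ∈ Finset.range (D + 1), g j z * w ^ j := by
  refine ⟨fun j z => ∑ i ∈ Finset.range (D + 1), G z (i : ℂ) *
    (Lagrange.basis (Finset.range (D + 1)) (fun i : ℕ => (i : ℂ)) i).coeff j, fun j => ?_,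
    fun z w => ?_⟩
  · exact Differentiable.fun_sum fun i _ => (hG (i : ℂ)).mul_const _
  · obtain ⟨p, hp, h⟩ := hdeg z
    have h1 : p = Lagrange.interpolate (Finset.range (D + 1)) (fun i : ℕ => (i : ℂ))
        fun i => p.eval ((fun i : ℕ => (i : ℂ)) i) := by
      refine Lagrange.eq_interpolate ?_ ?_
      · intro a _ b _ hab
        exact Nat.cast_injective (R := ℂ) hab
      · rw [Finset.card_range]
        refine lt_of_le_of_lt Polynomial.degree_le_natDegree ?_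
        exact_mod_cast Nat.lt_succ_of_le hp
    rw [h w, Polynomial.eval_eq_sum_range' (Nat.lt_succ_of_le hp)]
    refine Finset.sum_congr rfl fun j _ => ?_
    congr 1
    conv_lhs => rw [h1]
    rw [Lagrange.interpolate_apply, Polynomial.finsetSum_coeff]
    refine Finset.sum_congr rfl fun i _ => ?_
    rw [Polynomial.coeff_C_mul, ← h (i : ℂ)]

end Pool.Agent.Helper98.TA
end

-- part XC2
section
/-!
# TA-XC2: from the real plane to a bidisc, for functions of degree `≤ D` in the second variable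

`coeffs`; `H z w = ∑ j ≤ D, g j z * w ^ j * z ^ (D - j)`, so `H z (z * w) = z ^ D * G z w` and
`H z (r ^ 2) = z ^ D * G z (conj z)` for `‖z‖ = r`.  For `R ≤ r ≤ 2 R` the maximum principle in the
disc `‖z‖ ≤ r` gives `‖H z (r ^ 2)‖ ≤ r ^ D B ≤ (2 R) ^ D B` for `‖z‖ ≤ R`; `poly_ext` (interval
`[R ^ 2, 4 R ^ 2]`) gives `‖H z w‖ ≤ 10 ^ D (2 R) ^ D B` for `‖z‖ ≤ R`, `‖w‖ ≤ R ^ 2`.  For `‖z‖ = R`,
`‖w‖ ≤ R` this is `R ^ D ‖G z w‖ ≤ 10 ^ D (2 R) ^ D B`; maximum principle in `z` for the other `z`.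
(Maximum principle: `Complex.norm_le_of_forall_mem_frontier_norm_le` or similar.)
-/


namespace Pool.Agent.Helper98.TA

open Complex

private theorem XC2_max (f : ℂ → ℂ) (hf : Differentiable ℂ f) (r C : ℝ) (hr : 0 < r)
    (h : ∀ z : ℂ, ‖z‖ = r → ‖f z‖ ≤ C) (z : ℂ) (hz : ‖z‖ ≤ r) : ‖f z‖ ≤ C := by
  refine Complex.norm_le_of_forall_mem_frontier_norm_le (U := Metric.ball 0 r)
    Metric.isBounded_ball hf.diffContOnCl ?_ ?_
  · intro w hw
    rw [frontier_ball _ hr.ne'] at hw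
    exact h w (by simpa using hw)
  · rw [closure_ball _ hr.ne']
    simpa using hz

theorem ext_two (G : ℂ → ℂ → ℂ) (D : ℕ) (hG : ∀ w, Differentiable ℂ fun z => G z w)
    (hdeg : ∀ z, ∃ p : Polynomial ℂ, p.natDegree ≤ D ∧ ∀ w, G z w = p.eval w)
    (R B : ℝ) (hR : 0 < R) (h : ∀ z, ‖z‖ ≤ 2 * R → ‖G z ((starRingEnd ℂ) z)‖ ≤ B)
    (z w : ℂ) (hz : ‖z‖ ≤ R) (hw : ‖w‖ ≤ R) : ‖G z w‖ ≤ 20 ^ D * B := by
  obtain ⟨g, hg, hG'⟩ := coeffs G D hG hdeg
  have hB : 0 ≤ B := (norm_nonneg _).trans (h 0 (by simpa using hR.le))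
  obtain ⟨H, hH⟩ : ∃ H : ℂ → ℂ → ℂ, H = fun z w =>
    ∑ j ∈ Finset.range (D + 1), g j z * z ^ (D - j) * w ^ j := ⟨_, rfl⟩
  have hHG : ∀ z w, H z (z * w) = z ^ D * G z w := by
    intro z w
    rw [hH, hG' z w, Finset.mul_sum]
    refine Finset.sum_congr rfl fun j hj => ?_
    rw [Finset.mem_range] at hj
    have h1 : z ^ D = z ^ (D - j) * z ^ j := by
      rw [← pow_add]
      congr 1
      omega
    rw [h1, mul_pow]
    ring
  have hHd : ∀ w, Differentiable ℂ fun z => H z w := by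
    intro w
    rw [hH]
    exact Differentiable.fun_sum fun j _ =>
      ((hg j).mul (differentiable_id.pow _)).mul_const _
  have h1 : ∀ r : ℝ, R ≤ r → r ≤ 2 * R → ∀ z : ℂ, ‖z‖ ≤ r →
      ‖H z ((r ^ 2 : ℝ) : ℂ)‖ ≤ (2 * R) ^ D * B := by
    intro r hr1 hr2 z hz
    refine XC2_max (fun z => H z ((r ^ 2 : ℝ) : ℂ)) (hHd _) r _ (hR.trans_le hr1) ?_ z hz
    intro z hz
    have h2 : ((r ^ 2 : ℝ) : ℂ) = z * (starRingEnd ℂ) z := by
      rw [Complex.mul_conj, Complex.normSq_eq_norm_sq, hz]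
    have h3 : H z ((r ^ 2 : ℝ) : ℂ) = z ^ D * G z ((starRingEnd ℂ) z) := by rw [h2, hHG]
    change ‖H z ((r ^ 2 : ℝ) : ℂ)‖ ≤ _
    rw [h3, norm_mul, norm_pow, hz]
    exact mul_le_mul (pow_le_pow_left₀ (hR.le.trans hr1) hr2 D) (h z (by rw [hz]; exact hr2))
      (norm_nonneg _) (by positivity)
  have h2 : ∀ z : ℂ, ‖z‖ ≤ R → ∀ w : ℂ, ‖w‖ ≤ R ^ 2 → ‖H z w‖ ≤ 10 ^ D * ((2 * R) ^ D * B) := by
    intro z hz w hw
    obtain ⟨p, hp⟩ : ∃ p : Polynomial ℂ, p = ∑ j ∈ Finset.range (D + 1),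
      Polynomial.C (g j z * z ^ (D - j)) * Polynomial.X ^ j := ⟨_, rfl⟩
    have hpe : ∀ w, p.eval w = H z w := by
      intro w
      rw [hp, hH]
      simp [Polynomial.eval_finsetSum]
    have hpd : p.natDegree ≤ D := by
      rw [hp]
      refine Polynomial.natDegree_sum_le_of_forall_le _ _ fun j hj => ?_
      rw [Finset.mem_range] at hj
      exact (Polynomial.natDegree_C_mul_X_pow_le _ _).trans (by omega)
    rw [← hpe]
    refine poly_ext p D hpd (R ^ 2) _ (by positivity) ?_ w hw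
    intro t ht1 ht2
    have ht0 : 0 ≤ t := (sq_nonneg R).trans ht1
    have h3 : Real.sqrt t ^ 2 = t := Real.sq_sqrt ht0
    have h4 : R ≤ Real.sqrt t := Real.le_sqrt_of_sq_le ht1
    have h5 : Real.sqrt t ≤ 2 * R := by
      rw [Real.sqrt_le_left (by positivity)]
      linarith [mul_pow 2 R 2]
    have h6 := h1 (Real.sqrt t) h4 h5 z (hz.trans h4)
    rw [h3] at h6
    rw [hpe]
    exact h6
  refine XC2_max (fun z => G z w) (hG w) R _ hR ?_ z hz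
  intro z hz
  have h3 := h2 z hz.le (z * w) (by
    rw [norm_mul, hz, sq]
    exact mul_le_mul_of_nonneg_left hw hR.le)
  rw [hHG, norm_mul, norm_pow, hz] at h3
  have h4 : (10 : ℝ) ^ D * ((2 * R) ^ D * B) = R ^ D * (20 ^ D * B) := by
    have : (20 : ℝ) ^ D = 10 ^ D * 2 ^ D := by
      rw [← mul_pow]
      norm_num
    rw [this, mul_pow]
    ring
  rw [h4] at h3
  exact le_of_mul_le_mul_left h3 (by positivity)

end Pool.Agent.Helper98.TA
end

-- part XD1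
section
/-!
# TA-XD1: Schwarz' lemma for a zero of order `T`

`f ζ = ζ ^ T * g ζ` with `g` entire (iterated `dslope`), maximum principle for `g` on `‖ζ‖ ≤ K`.
-/


namespace Pool.Agent.Helper98.TA

open Complex

private noncomputable def ds (f : ℂ → ℂ) (n : ℕ) : ℂ → ℂ := (Function.swap dslope 0)^[n] f

private theorem ds_diff (f : ℂ → ℂ) (hf : Differentiable ℂ f) (n : ℕ) :
    Differentiable ℂ (ds f n) := by
  induction n with
  | zero => exact hf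
  | succ n ih =>
    have h1 : ds f (n + 1) = dslope (ds f n) 0 := by
      unfold ds
      rw [Function.iterate_succ_apply']
    rw [h1]
    have := (Complex.differentiableOn_dslope (f := ds f n) (s := Set.univ) (c := 0)
      Filter.univ_mem).mpr ih.differentiableOn
    exact differentiableOn_univ.mp this

private theorem ds_zero (f : ℂ → ℂ) (hf : Differentiable ℂ f) (n : ℕ) :
    ds f n 0 = iteratedDeriv n f 0 / n.factorial := by
  have hp := (hf.analyticAt 0).hasFPowerSeriesAt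
  have h2 := (hp.has_fpower_series_iterate_dslope_fslope n).coeff_zero 1
  rw [← FormalMultilinearSeries.coeff, FormalMultilinearSeries.coeff_iterate_fslope,
    zero_add, FormalMultilinearSeries.coeff_ofScalars] at h2
  exact h2.symm

private theorem ds_succ (f : ℂ → ℂ) (n : ℕ) (h : ds f n 0 = 0) (z : ℂ) :
    ds f n z = z * ds f (n + 1) z := by
  have h1 : ds f (n + 1) = dslope (ds f n) 0 := by
    unfold ds
    rw [Function.iterate_succ_apply']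
  have h2 := sub_smul_dslope (ds f n) 0 z
  rw [h1]
  simp only [sub_zero, smul_eq_mul, h] at h2
  exact h2.symm

theorem schwarz_ord (f : ℂ → ℂ) (hf : Differentiable ℂ f) (T : ℕ)
    (h0 : ∀ m < T, iteratedDeriv m f 0 = 0) (K B : ℝ) (hK : 1 ≤ K)
    (hB : ∀ ζ : ℂ, ‖ζ‖ ≤ K → ‖f ζ‖ ≤ B) : ‖f 1‖ ≤ B / K ^ T := by
  have hz : ∀ n < T, ds f n 0 = 0 := by
    intro n hn
    rw [ds_zero f hf n, h0 n hn, zero_div]
  have hfac : ∀ n ≤ T, ∀ z : ℂ, f z = z ^ n * ds f n z := by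
    intro n
    induction n with
    | zero => intro _ z; simp [ds]
    | succ n ih =>
      intro hn z
      rw [ih (by omega) z, ds_succ f n (hz n (by omega)) z]
      ring
  have hT := hfac T le_rfl
  have hKpos : 0 < K := by linarith
  have hb : ∀ z ∈ frontier (Metric.ball (0 : ℂ) K), ‖ds f T z‖ ≤ B / K ^ T := by
    intro z hzf
    rw [frontier_ball (0 : ℂ) hKpos.ne'] at hzf
    have hzn : ‖z‖ = K := by simpa using hzf
    have h1 := hB z hzn.le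
    rw [hT z, norm_mul, norm_pow, hzn] at h1
    rw [le_div_iff₀ (by positivity)]
    linarith
  have h1 : ‖ds f T 1‖ ≤ B / K ^ T := by
    refine Complex.norm_le_of_forall_mem_frontier_norm_le (U := Metric.ball (0 : ℂ) K)
      Metric.isBounded_ball (ds_diff f hf T).diffContOnCl hb ?_
    rw [closure_ball (0 : ℂ) hKpos.ne']
    simpa using hK
  have h2 := hT 1
  rw [one_pow, one_mul] at h2
  rw [h2]
  exact h1

end Pool.Agent.Helper98.TA
end

-- part XD2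
section
/-!
# TA-XD2: Cauchy's estimate

`Complex.norm_iteratedDeriv_le_of_forall_mem_sphere_norm_le` or similar.
-/


namespace Pool.Agent.Helper98.TA

open Complex

theorem cauchy_one (f : ℂ → ℂ) (hf : Differentiable ℂ f) (T : ℕ) (B : ℝ)
    (hB : ∀ ζ : ℂ, ‖ζ‖ ≤ 1 → ‖f ζ‖ ≤ B) : ‖iteratedDeriv T f 0‖ ≤ T.factorial * B := by
  have h := Complex.norm_iteratedDeriv_le_of_forall_mem_sphere_norm_le (c := 0) (R := 1)
    (C := B) T one_pos hf.diffContOnCl fun z hz => hB z (by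
      rw [mem_sphere_zero_iff_norm] at hz
      exact hz.le)
  simpa using h

private theorem XD2_scale (f : ℂ → ℂ) (c : ℂ) (T : ℕ) :
    iteratedDeriv T (fun ζ : ℂ => f (c * ζ)) = fun ζ => c ^ T * iteratedDeriv T f (c * ζ) := by
  induction T with
  | zero => simp
  | succ T ih =>
    rw [iteratedDeriv_succ, ih, iteratedDeriv_succ]
    funext ζ
    rw [deriv_const_mul_field, deriv_comp_mul_left c (iteratedDeriv T f) ζ, smul_eq_mul, pow_succ,
      mul_assoc]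

theorem deriv_scale (F : (Fin 4 → ℂ) → ℂ) (T : ℕ) (c : ℂ) (z : Fin 4 → ℂ) :
    iteratedDeriv T (fun ζ : ℂ => F (ζ • (c • z))) 0 =
      c ^ T * iteratedDeriv T (fun ζ : ℂ => F (ζ • z)) 0 := by
  have h := congrFun (XD2_scale (fun ζ : ℂ => F (ζ • z)) c T) 0
  have h1 : (fun ζ : ℂ => F (ζ • (c • z))) = fun ζ : ℂ => F ((c * ζ) • z) := by
    funext ζ
    rw [smul_smul, mul_comm]
  rw [h1]
  simpa using h

end Pool.Agent.Helper98.TA
end

-- part XE1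
section
/-!
# TA-XE1: the choice of the constants

With `R = K ρ₀`: `log K ≥ c log 20 + 3`; then `δ` with `(2 C R ^ 2 + C ρ₀ ^ 2) δ ≤ 1 / 2`;
`2 √(C (R / u) ^ 2 (U + A)) ≤ 2 R √(14 / (δ T)) √(2 C η T ^ 3) = 2 R T √(28 C η / δ) ≤ T / 2` for a
small `η`; the remaining terms `2 C (R / u) ^ 2 + 2 C R ^ 2 ≤ 4 C R ^ 2` are `≤ T - 1` for large `T`.
(`U + A` may be negative, then the root is `0`.)
-/


namespace Pool.Agent.Helper98.TA

theorem num_X (ρ₀ C c : ℝ) (hρ : 0 < ρ₀) (hC : 0 < C) (hc : 0 < c) :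
    ∃ K δ η : ℝ, 1 ≤ K ∧ 0 < δ ∧ 0 < η ∧ ∃ T₁ : ℕ, ∀ (T D : ℕ) (A U u : ℝ), T₁ ≤ T →
      A ≤ η * T ^ 3 → U ≤ η * T ^ 3 → (D : ℝ) ≤ c * T → 1 ≤ u → u ^ 2 ≤ δ * T →
      δ * T ≤ 14 * u ^ 2 →
      20 ^ D * Real.exp (-U + 2 * √(C * (K * ρ₀ / u) ^ 2 * (U + A)) + 2 * C * (K * ρ₀ / u) ^ 2 +
        2 * C * (K * ρ₀) ^ 2 + 2 * C * u ^ 2 * (K * ρ₀) ^ 2) / K ^ T *
        Real.exp (C * u ^ 2 * ρ₀ ^ 2) < Real.exp (-U) / 2 := by
  have hl20 : 0 < Real.log 20 := Real.log_pos (by norm_num)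
  obtain ⟨K, hKd⟩ : ∃ K : ℝ, K = Real.exp (c * Real.log 20 + 3) := ⟨_, rfl⟩
  have hK : 1 ≤ K := by
    rw [hKd]
    exact Real.one_le_exp (by positivity)
  have hK0 : 0 < K := by linarith
  have hlK : Real.log K = c * Real.log 20 + 3 := by rw [hKd, Real.log_exp]
  obtain ⟨R, hR⟩ : ∃ R : ℝ, R = K * ρ₀ := ⟨_, rfl⟩
  have hR0 : 0 < R := by rw [hR]; positivity
  obtain ⟨δ, hδd⟩ : ∃ δ : ℝ, δ = 1 / (2 * (2 * C * R ^ 2 + C * ρ₀ ^ 2)) := ⟨_, rfl⟩
  have hδ : 0 < δ := by rw [hδd]; positivity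
  have hδ2 : (2 * C * R ^ 2 + C * ρ₀ ^ 2) * δ = 1 / 2 := by
    rw [hδd]; field_simp
  obtain ⟨η, hηd⟩ : ∃ η : ℝ, η = δ / (28 * C * R ^ 2 * 16) := ⟨_, rfl⟩
  have hη : 0 < η := by rw [hηd]; positivity
  have hη2 : 28 * C * R ^ 2 * 16 * η = δ := by rw [hηd]; field_simp
  obtain ⟨T₁, hT₁⟩ := exists_nat_ge (4 * C * R ^ 2 + 1)
  refine ⟨K, δ, η, hK, hδ, hη, T₁, fun T D A U u hT hA hU hD hu hu2 hu3 => ?_⟩
  rw [← hR]
  have hTR : 4 * C * R ^ 2 + 1 ≤ T := hT₁.trans (by exact_mod_cast hT)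
  have hT0 : (0 : ℝ) < T := by
    have : 0 < 4 * C * R ^ 2 := by positivity
    linarith
  have hu0 : 0 < u := by linarith
  -- the root
  have h1 : √(C * (R / u) ^ 2 * (U + A)) ≤ T / 4 := by
    rw [Real.sqrt_le_left (by positivity)]
    have e1 : U + A ≤ 2 * η * T ^ 3 := by linarith
    have e2 : C * (R / u) ^ 2 * (U + A) ≤ C * (R / u) ^ 2 * (2 * η * T ^ 3) :=
      mul_le_mul_of_nonneg_left e1 (by positivity)
    refine e2.trans ?_
    have e3 : C * (R / u) ^ 2 * (2 * η * T ^ 3) = 2 * C * R ^ 2 * η * T ^ 3 / u ^ 2 := by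
      field_simp
    rw [e3, div_le_iff₀ (by positivity)]
    have e4 : 2 * C * R ^ 2 * η * T ^ 3 = (T / 4) ^ 2 * (δ * T / 14) := by
      rw [← hη2]; ring
    rw [e4]
    apply mul_le_mul_of_nonneg_left _ (by positivity)
    linarith
  -- the other terms
  have h2 : (R / u) ^ 2 ≤ R ^ 2 := by
    apply pow_le_pow_left₀ (by positivity)
    exact div_le_self hR0.le hu
  have h3 : 2 * C * (R / u) ^ 2 ≤ 2 * C * R ^ 2 := mul_le_mul_of_nonneg_left h2 (by positivity)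
  have h4 : 2 * C * u ^ 2 * R ^ 2 + C * u ^ 2 * ρ₀ ^ 2 ≤ T / 2 := by
    have : 2 * C * u ^ 2 * R ^ 2 + C * u ^ 2 * ρ₀ ^ 2 = (2 * C * R ^ 2 + C * ρ₀ ^ 2) * u ^ 2 := by
      ring
    rw [this]
    calc (2 * C * R ^ 2 + C * ρ₀ ^ 2) * u ^ 2 ≤ (2 * C * R ^ 2 + C * ρ₀ ^ 2) * (δ * T) :=
          mul_le_mul_of_nonneg_left hu2 (by positivity)
      _ = T / 2 := by rw [← mul_assoc, hδ2]; ring
  have h5 : (D : ℝ) * Real.log 20 ≤ c * T * Real.log 20 :=
    mul_le_mul_of_nonneg_right hD hl20.le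
  have e20 : (20 : ℝ) ^ D = Real.exp (D * Real.log 20) := by
    rw [mul_comm, Real.exp_mul, Real.exp_log (by norm_num), Real.rpow_natCast]
  have eK : K ^ T = Real.exp (T * Real.log K) := by
    rw [mul_comm, Real.exp_mul, Real.exp_log hK0, Real.rpow_natCast]
  have hl2 : Real.log 2 < 1 := by
    have := Real.log_two_lt_d9
    linarith
  have e2 : Real.exp (-U) / 2 = Real.exp (-U - Real.log 2) := by
    rw [Real.exp_sub, Real.exp_log (by norm_num)]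
  rw [e20, eK, e2, ← Real.exp_add, ← Real.exp_sub, ← Real.exp_add]
  apply Real.exp_lt_exp.2
  rw [hlK]
  nlinarith

end Pool.Agent.Helper98.TA
end

-- part XE2
section
/-!
# TA-XE2: the choice of the unit, and the last estimate

`num_u`: the largest `n` with `(2 + √3) ^ (2 n) ≤ δ T`; `(2 + √3) ^ 2 ≤ 14`.
`num_d`: `T! ≤ T ^ T`, `log T ≤ T`, everything is `o (T ^ 3)` (`√(2 C η T ^ 3) = o (T ^ 3)`;
`η T ^ 3 + A` may be negative, then the root is `0`).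
-/


namespace Pool.Agent.Helper98.TA

theorem num_u (δ : ℝ) (hδ : 0 < δ) : ∃ T₁ : ℕ, ∀ T : ℕ, T₁ ≤ T → ∃ n : ℕ,
    1 ≤ ((2 : ℝ) + √3) ^ n ∧ (((2 : ℝ) + √3) ^ n) ^ 2 ≤ δ * T ∧
      δ * T ≤ 14 * (((2 : ℝ) + √3) ^ n) ^ 2 := by
  obtain ⟨T₁, hT₁⟩ := exists_nat_ge (1 / δ)
  refine ⟨T₁, fun T hT => ?_⟩
  have hTR : 1 / δ ≤ T := hT₁.trans (by exact_mod_cast hT)
  have h1 : 1 ≤ δ * T := by
    rw [div_le_iff₀ hδ] at hTR
    linarith
  have h3 : √3 ^ 2 = 3 := Real.sq_sqrt (by norm_num)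
  have h30 : 0 ≤ √3 := Real.sqrt_nonneg 3
  have h31 : √3 ≤ 7 / 4 := by
    rw [Real.sqrt_le_left (by norm_num)]
    norm_num
  have hq : (1 : ℝ) < (2 + √3) ^ 2 := by nlinarith
  have hq14 : ((2 : ℝ) + √3) ^ 2 ≤ 14 := by nlinarith
  obtain ⟨n, hn1, hn2⟩ := exists_nat_pow_near h1 hq
  refine ⟨n, one_le_pow₀ (by linarith), ?_, ?_⟩
  · rw [← pow_mul, mul_comm n 2, pow_mul]
    exact hn1
  · rw [← pow_mul, mul_comm n 2, pow_mul]
    refine hn2.le.trans ?_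
    rw [pow_succ, mul_comm]
    exact mul_le_mul_of_nonneg_right hq14 (by positivity)

theorem num_d (C η : ℝ) (hC : 0 < C) (hη : 0 < η) : ∃ T₁ : ℕ, ∀ (T : ℕ) (A : ℝ), T₁ ≤ T →
    A ≤ η * T ^ 3 →
    T.factorial * (Real.exp (-(η * T ^ 3) + 2 * √(C * (η * T ^ 3 + A)) + 3 * C) *
      Real.exp C) ≤ Real.exp (-(η / 2 * T ^ 3)) := by
  obtain ⟨T₁, hT₁⟩ := exists_nat_ge (max (16 / η) (max (1024 * C / η) (max (32 * C / η) 1)))
  refine ⟨T₁, fun T A hT hA => ?_⟩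
  have hTR : max (16 / η) (max (1024 * C / η) (max (32 * C / η) 1)) ≤ (T : ℝ) :=
    hT₁.trans (by exact_mod_cast hT)
  have a1 : 16 / η ≤ T := (le_max_left _ _).trans hTR
  have a2 : 1024 * C / η ≤ T := ((le_max_left _ _).trans (le_max_right _ _)).trans hTR
  have a3 : 32 * C / η ≤ T :=
    ((le_max_left _ _).trans ((le_max_right _ _).trans (le_max_right _ _))).trans hTR
  have a4 : (1 : ℝ) ≤ T :=
    ((le_max_right _ _).trans ((le_max_right _ _).trans (le_max_right _ _))).trans hTR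
  rw [div_le_iff₀ hη] at a1 a2 a3
  have hT0 : (0 : ℝ) < T := by linarith
  -- the factorial
  have hf : (T.factorial : ℝ) ≤ Real.exp (T ^ 2) := by
    have h1 : (T.factorial : ℝ) ≤ (T : ℝ) ^ T := by exact_mod_cast Nat.factorial_le_pow T
    have h2 : (T : ℝ) ≤ Real.exp T := by
      have := Real.add_one_le_exp (T : ℝ)
      linarith
    calc (T.factorial : ℝ) ≤ (T : ℝ) ^ T := h1
      _ ≤ Real.exp T ^ T := pow_le_pow_left₀ hT0.le h2 T
      _ = Real.exp (T ^ 2) := by rw [← Real.exp_nat_mul]; congr 1; ring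
  -- the root
  have hs : √(C * (η * T ^ 3 + A)) ≤ η * T ^ 3 / 16 := by
    rw [Real.sqrt_le_left (by positivity)]
    have e1 : C * (η * T ^ 3 + A) ≤ C * (2 * η * T ^ 3) :=
      mul_le_mul_of_nonneg_left (by linarith) hC.le
    refine e1.trans ?_
    have e2 : (η * (T : ℝ) ^ 3 / 16) ^ 2 = η * T ^ 3 * (T ^ 2 * (T * η)) / 256 := by ring
    rw [e2]
    have e3 : (1 : ℝ) ≤ T ^ 2 := by nlinarith
    have e4 : 1024 * C ≤ T ^ 2 * (T * η) := by nlinarith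
    have e5 : 0 < η * (T : ℝ) ^ 3 := by positivity
    nlinarith
  rw [← Real.exp_add]
  refine (mul_le_mul_of_nonneg_right hf (Real.exp_pos _).le).trans ?_
  rw [← Real.exp_add]
  apply Real.exp_le_exp.2
  have b1 : (T : ℝ) ^ 2 ≤ η * T ^ 3 / 16 := by nlinarith [sq_nonneg (T : ℝ)]
  have b2 : 4 * C ≤ η * T ^ 3 / 8 := by
    have : (1 : ℝ) ≤ T ^ 2 := by nlinarith
    nlinarith
  linarith

end Pool.Agent.Helper98.TA
end

-- part XF1
section
/-!
# TA-XF1: decomposition of complex points, the action of a unit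

`decomp`: `s i = (z i + conj (z (i + 2))) / 2`, `v i = (z i - conj (z (i + 2))) / (2 I)` for
`i = 0, 1`, and `s 2 = conj (s 0)` and so on (indices in `Fin 4`, `i + 2` modulo `4`).
-/


namespace Pool.Agent.Helper98.TA

open Complex

theorem decomp (z : Fin 4 → ℂ) : ∃ s v : Fin 4 → ℂ, RealPt s ∧ RealPt v ∧ z = s + I • v ∧
    (∀ i, ‖s i‖ ≤ (‖z i‖ + ‖z (i + 2)‖) / 2) ∧ (∀ i, ‖v i‖ ≤ (‖z i‖ + ‖z (i + 2)‖) / 2) ∧
    (z 2 = (starRingEnd ℂ) (z 0) → v 0 = 0 ∧ v 2 = 0) := by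
  have e0 : (0 : Fin 4) + 2 = 2 := by decide
  have e1 : (1 : Fin 4) + 2 = 3 := by decide
  have e2 : (2 : Fin 4) + 2 = 0 := by decide
  have e3 : (3 : Fin 4) + 2 = 1 := by decide
  have hI2 : (2 * I : ℂ) ≠ 0 := mul_ne_zero two_ne_zero I_ne_zero
  refine ⟨fun i => (z i + (starRingEnd ℂ) (z (i + 2))) / 2,
    fun i => (z i - (starRingEnd ℂ) (z (i + 2))) / (2 * I), ⟨?_, ?_⟩, ⟨?_, ?_⟩, ?_, ?_, ?_, ?_⟩
  · simp only [e0, e2, map_div₀, map_add, Complex.conj_conj, map_ofNat]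
    ring
  · simp only [e1, e3, map_div₀, map_add, Complex.conj_conj, map_ofNat]
    ring
  · simp only [e0, e2, map_div₀, map_sub, map_mul, Complex.conj_conj, map_ofNat, Complex.conj_I]
    rw [div_eq_div_iff hI2 (by simp)]
    ring
  · simp only [e1, e3, map_div₀, map_sub, map_mul, Complex.conj_conj, map_ofNat, Complex.conj_I]
    rw [div_eq_div_iff hI2 (by simp)]
    ring
  · funext i
    simp only [Pi.add_apply, Pi.smul_apply, smul_eq_mul]
    field_simp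
    ring
  · intro i
    rw [norm_div, Complex.norm_ofNat]
    have h1 := norm_add_le (z i) ((starRingEnd ℂ) (z (i + 2)))
    rw [Complex.norm_conj] at h1
    linarith
  · intro i
    rw [norm_div, norm_mul, Complex.norm_ofNat, Complex.norm_I, mul_one]
    have h1 := norm_sub_le (z i) ((starRingEnd ℂ) (z (i + 2)))
    rw [Complex.norm_conj] at h1
    linarith
  · intro h
    simp only [e0, e2]
    rw [h]
    simp

theorem RealPt.smul {z : Fin 4 → ℂ} (h : RealPt z) (x : ℝ) : RealPt ((x : ℂ) • z) := by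
  obtain ⟨h1, h2⟩ := h
  constructor
  · simp only [Pi.smul_apply, smul_eq_mul, map_mul, Complex.conj_ofReal, h1]
  · simp only [Pi.smul_apply, smul_eq_mul, map_mul, Complex.conj_ofReal, h2]

theorem RealPt.add {z z' : Fin 4 → ℂ} (h : RealPt z) (h' : RealPt z') : RealPt (z + z') := by
  obtain ⟨h1, h2⟩ := h
  obtain ⟨h3, h4⟩ := h'
  constructor
  · simp only [Pi.add_apply, map_add, h1, h3]
  · simp only [Pi.add_apply, map_add, h2, h4]

private theorem XF1_sc0 (u : ℝ) (z : Fin 4 → ℂ) : sc u z 0 = (u : ℂ) * z 0 := rfl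

private theorem XF1_sc1 (u : ℝ) (z : Fin 4 → ℂ) : sc u z 1 = ((u⁻¹ : ℝ) : ℂ) * z 1 := rfl

private theorem XF1_sc2 (u : ℝ) (z : Fin 4 → ℂ) : sc u z 2 = (u : ℂ) * z 2 := rfl

private theorem XF1_sc3 (u : ℝ) (z : Fin 4 → ℂ) : sc u z 3 = ((u⁻¹ : ℝ) : ℂ) * z 3 := rfl

theorem RealPt.sc {z : Fin 4 → ℂ} (h : RealPt z) (u : ℝ) : RealPt (sc u z) := by
  obtain ⟨h1, h2⟩ := h
  constructor
  · rw [XF1_sc0, XF1_sc2, h1, map_mul, Complex.conj_ofReal]
  · rw [XF1_sc1, XF1_sc3, h2, map_mul, Complex.conj_ofReal]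

theorem sc_add (u : ℝ) (z z' : Fin 4 → ℂ) : sc u (z + z') = sc u z + sc u z' := by
  funext i
  fin_cases i
  · exact mul_add _ _ _
  · exact mul_add _ _ _
  · exact mul_add _ _ _
  · exact mul_add _ _ _

theorem sc_smul (u : ℝ) (c : ℂ) (z : Fin 4 → ℂ) : sc u (c • z) = c • sc u z := by
  funext i
  fin_cases i
  · exact mul_left_comm _ _ _
  · exact mul_left_comm _ _ _
  · exact mul_left_comm _ _ _
  · exact mul_left_comm _ _ _

theorem sc_sc (u u' : ℝ) (z : Fin 4 → ℂ) : sc u (sc u' z) = sc (u * u') z := by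
  have h1 : ((u : ℝ) : ℂ) * ((u' : ℝ) : ℂ) = ((u * u' : ℝ) : ℂ) := by push_cast; rfl
  have h2 : ((u⁻¹ : ℝ) : ℂ) * ((u'⁻¹ : ℝ) : ℂ) = (((u * u')⁻¹ : ℝ) : ℂ) := by
    rw [mul_inv]
    push_cast
    rfl
  funext i
  fin_cases i
  · show (u : ℂ) * ((u' : ℂ) * z 0) = ((u * u' : ℝ) : ℂ) * z 0
    rw [← mul_assoc, h1]
  · show ((u⁻¹ : ℝ) : ℂ) * (((u'⁻¹ : ℝ) : ℂ) * z 1) = (((u * u')⁻¹ : ℝ) : ℂ) * z 1
    rw [← mul_assoc, h2]
  · show (u : ℂ) * ((u' : ℂ) * z 2) = ((u * u' : ℝ) : ℂ) * z 2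
    rw [← mul_assoc, h1]
  · show ((u⁻¹ : ℝ) : ℂ) * (((u'⁻¹ : ℝ) : ℂ) * z 3) = (((u * u')⁻¹ : ℝ) : ℂ) * z 3
    rw [← mul_assoc, h2]

theorem sc_one (z : Fin 4 → ℂ) : sc 1 z = z := by
  funext i
  fin_cases i
  · show ((1 : ℝ) : ℂ) * z 0 = z 0
    simp
  · show (((1 : ℝ)⁻¹ : ℝ) : ℂ) * z 1 = z 1
    simp
  · show ((1 : ℝ) : ℂ) * z 2 = z 2
    simp
  · show (((1 : ℝ)⁻¹ : ℝ) : ℂ) * z 3 = z 3
    simp

theorem norm_sc_le (u : ℝ) (hu : 1 ≤ u) (z : Fin 4 → ℂ) : ‖sc u z‖ ≤ u * ‖z‖ := by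
  have hu0 : 0 ≤ u := by linarith
  rw [pi_norm_le_iff_of_nonneg (by positivity)]
  have h1 : ∀ w : ℂ, ‖w‖ ≤ ‖z‖ → ‖(u : ℂ) * w‖ ≤ u * ‖z‖ := by
    intro w hw
    rw [norm_mul, Complex.norm_real, Real.norm_of_nonneg hu0]
    exact mul_le_mul_of_nonneg_left hw hu0
  have h2 : ∀ w : ℂ, ‖w‖ ≤ ‖z‖ → ‖((u⁻¹ : ℝ) : ℂ) * w‖ ≤ u * ‖z‖ := by
    intro w hw
    rw [norm_mul, Complex.norm_real, Real.norm_of_nonneg (inv_nonneg.2 hu0)]
    exact mul_le_mul ((inv_le_one_of_one_le₀ hu).trans hu) hw (norm_nonneg _) hu0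
  intro i
  fin_cases i
  · exact h1 _ (norm_le_pi_norm z 0)
  · exact h2 _ (norm_le_pi_norm z 1)
  · exact h1 _ (norm_le_pi_norm z 2)
  · exact h2 _ (norm_le_pi_norm z 3)

end Pool.Agent.Helper98.TA
end

-- part XF2
section
/-!
# TA-XF2: three lines for the normalised function

`gauss_lines` for `g w = exp (i E w) * Fn (s + w • v)`, `E = (Q s v).im`: for real `x` the point
`s + x • v` is real; `s + (x + i y) • v = (s + x • v) + I • (y • v)` and
`(Q (s + x v) (y v)).im = y E` (`qr`), so `‖g (x + i y)‖ ≤ exp (A + C b ^ 2 y ^ 2)`; constant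
`C b ^ 2` in `gauss_lines`; `‖Fn (s + I • v)‖ = exp E ‖g I‖`.  (`Fn` is differentiable along lines.)
-/


namespace Pool.Agent.Helper98.TA

open Complex

variable {ρ₀ C A : ℝ} {D T : ℕ} {Q : (Fin 4 → ℂ) →ₗ[ℂ] (Fin 4 → ℂ) →ₗ[ℂ] ℂ}
  {F : (Fin 4 → ℂ) → ℂ}

theorem XData.lines (h : XData ρ₀ C A D T Q F) (hC : 0 < C) (U : ℝ)
    (hU : ∀ s, RealPt s → ‖Fn Q F s‖ ≤ Real.exp (-U)) (s v : Fin 4 → ℂ) (hs : RealPt s)
    (hv : RealPt v) (b : ℝ) (hb : 0 < b) (hvb : ‖v‖ ≤ b) :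
    ‖Fn Q F (s + I • v)‖ ≤
      Real.exp (-U + 2 * √(C * b ^ 2 * (U + A)) + 2 * C * b ^ 2 + |(Q s v).im|) := by
  obtain ⟨E, hE⟩ : ∃ E : ℝ, E = (Q s v).im := ⟨_, rfl⟩
  obtain ⟨g, hg⟩ : ∃ g : ℂ → ℂ, g = fun w => cexp (I * E * w) * Fn Q F (s + w • v) := ⟨_, rfl⟩
  have hgd : Differentiable ℂ g := by
    rw [hg]
    have h1 : Differentiable ℂ fun w : ℂ => s + w • v :=
      (differentiable_const s).add (differentiable_id.smul_const v)
    have h2 : Differentiable ℂ fun w : ℂ => F (s + w • v) := h.diff.comp h1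
    have h3 : (fun w : ℂ => Q (s + w • v) (s + w • v)) = fun w =>
        Q s s + w * Q v s + w * (Q s v + w * Q v v) := by
      funext w
      simp only [map_add, LinearMap.add_apply, map_smul, LinearMap.smul_apply, smul_eq_mul]
    have h4 : Differentiable ℂ fun w : ℂ => Q (s + w • v) (s + w • v) := by
      rw [h3]
      fun_prop
    have h5 : Differentiable ℂ fun w : ℂ => cexp (-(Q (s + w • v) (s + w • v)) / 2) :=
      (h4.neg.div_const 2).cexp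
    have h6 : Differentiable ℂ fun w : ℂ => cexp (I * E * w) := by fun_prop
    exact h6.mul (h2.mul h5)
  have hexp : ∀ x y : ℝ, ‖cexp (I * E * (x + y * I))‖ = Real.exp (-(E * y)) := by
    intro x y
    rw [Complex.norm_exp]
    congr 1
    simp
  have h0 : ∀ x : ℝ, ‖g x‖ ≤ Real.exp (-U) := by
    intro x
    have h1 := hexp x 0
    rw [mul_zero, neg_zero, Real.exp_zero, ofReal_zero, zero_mul, add_zero] at h1
    rw [hg]
    simp only
    rw [norm_mul, h1, one_mul]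
    exact hU _ (hs.add (hv.smul x))
  have h1 : ∀ x y : ℝ, 0 ≤ y → ‖g (x + y * I)‖ ≤ Real.exp (A + C * b ^ 2 * y ^ 2) := by
    intro x y hy
    have e1 : s + ((x : ℂ) + y * I) • v = (s + (x : ℂ) • v) + I • ((y : ℂ) • v) := by
      rw [add_smul, smul_smul, add_assoc, mul_comm (y : ℂ) I]
    have h2 := h.gr (s + (x : ℂ) • v) ((y : ℂ) • v) (hs.add (hv.smul x)) (hv.smul y)
    have e2 : (Q (s + (x : ℂ) • v) ((y : ℂ) • v)).im = y * E := by
      simp only [map_add, LinearMap.add_apply, map_smul, LinearMap.smul_apply, smul_eq_mul]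
      have e3 := h.qr v hv
      rw [hE]
      simp [e3]
    have e6 : ‖((y : ℂ) • v)‖ ^ 2 ≤ b ^ 2 * y ^ 2 := by
      rw [norm_smul, mul_pow, Complex.norm_real, Real.norm_eq_abs, sq_abs, mul_comm]
      exact mul_le_mul_of_nonneg_right (pow_le_pow_left₀ (norm_nonneg _) hvb 2) (sq_nonneg y)
    rw [hg]
    simp only
    rw [norm_mul, hexp, e1]
    calc Real.exp (-(E * y)) * ‖Fn Q F (s + (x : ℂ) • v + I • ((y : ℂ) • v))‖
        ≤ Real.exp (-(E * y)) * Real.exp (A + C * ‖((y : ℂ) • v)‖ ^ 2 + y * E) := by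
          rw [← e2]
          exact mul_le_mul_of_nonneg_left h2 (Real.exp_pos _).le
      _ = Real.exp (A + C * ‖((y : ℂ) • v)‖ ^ 2) := by
          rw [← Real.exp_add]
          congr 1
          ring
      _ ≤ Real.exp (A + C * b ^ 2 * y ^ 2) := by
          apply Real.exp_le_exp.2
          nlinarith
  have h2 := gauss_lines g hgd U A (C * b ^ 2) (by positivity) h0 h1 0
  have h3 : ‖g ((0 : ℝ) + I)‖ = Real.exp (-E) * ‖Fn Q F (s + I • v)‖ := by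
    have h4 := hexp 0 1
    rw [ofReal_one, one_mul, mul_one] at h4
    rw [hg]
    simp only
    rw [norm_mul, h4, ofReal_zero, zero_add]
  rw [h3] at h2
  have h5 : ‖Fn Q F (s + I • v)‖ = Real.exp E * (Real.exp (-E) * ‖Fn Q F (s + I • v)‖) := by
    rw [← mul_assoc, ← Real.exp_add, add_neg_cancel, Real.exp_zero, one_mul]
  rw [h5]
  calc Real.exp E * (Real.exp (-E) * ‖Fn Q F (s + I • v)‖)
      ≤ Real.exp E * Real.exp (-U + 2 * √(C * b ^ 2 * (U + A)) + 2 * (C * b ^ 2)) :=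
        mul_le_mul_of_nonneg_left h2 (Real.exp_pos _).le
    _ = Real.exp (E + (-U + 2 * √(C * b ^ 2 * (U + A)) + 2 * (C * b ^ 2))) :=
        (Real.exp_add _ _).symm
    _ ≤ _ := by
        apply Real.exp_le_exp.2
        rw [← hE]
        have := le_abs_self E
        linarith

end Pool.Agent.Helper98.TA
end

-- part XG1
section
/-!
# TA-XG1: complex `z1, z1'`, real `z0`

`decomp p = s + I • v` with `v 0 = v 2 = 0`, `‖s i‖ ≤ 2 R`, `‖v i‖ ≤ R`; `sc u p =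
sc u s + I • sc u v` (`sc_add`, `sc_smul`), `‖sc u s‖ ≤ 2 R u`, `‖sc u v‖ ≤ R / u`, so
`|(Q (sc u s) (sc u v)).im| ≤ 2 C R ^ 2`; `lines` with `b = R / u`.
-/


namespace Pool.Agent.Helper98.TA

open Complex

variable {ρ₀ C A : ℝ} {D T : ℕ} {Q : (Fin 4 → ℂ) →ₗ[ℂ] (Fin 4 → ℂ) →ₗ[ℂ] ℂ}
  {F : (Fin 4 → ℂ) → ℂ}

theorem XData.plane_one (h : XData ρ₀ C A D T Q F) (hC : 0 < C) (U : ℝ)
    (hU : ∀ s, RealPt s → ‖Fn Q F s‖ ≤ Real.exp (-U)) (u R : ℝ) (hu : 1 ≤ u) (hR : 0 < R)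
    (p : Fin 4 → ℂ) (hp : p 2 = (starRingEnd ℂ) (p 0)) (h0 : ‖p 0‖ ≤ 2 * R) (h1 : ‖p 1‖ ≤ R)
    (h3 : ‖p 3‖ ≤ R) :
    ‖Fn Q F (sc u p)‖ ≤
      Real.exp (-U + 2 * √(C * (R / u) ^ 2 * (U + A)) + 2 * C * (R / u) ^ 2 + 2 * C * R ^ 2) := by
  obtain ⟨s, v, hs, hv, hpe, hsn, hvn, hv0⟩ := decomp p
  obtain ⟨hv00, hv02⟩ := hv0 hp
  have hu0 : 0 < u := by linarith
  have h2 : ‖p 2‖ ≤ 2 * R := by
    rw [hp, RCLike.norm_conj]
    exact h0
  have hss : ‖s‖ ≤ 2 * R := by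
    rw [pi_norm_le_iff_of_nonneg (by positivity)]
    intro i
    refine (hsn i).trans ?_
    fin_cases i
    · show (‖p 0‖ + ‖p (0 + 2)‖) / 2 ≤ 2 * R
      rw [zero_add]
      linarith
    · show (‖p 1‖ + ‖p (1 + 2)‖) / 2 ≤ 2 * R
      have e : (1 + 2 : Fin 4) = 3 := rfl
      rw [e]
      linarith
    · show (‖p 2‖ + ‖p (2 + 2)‖) / 2 ≤ 2 * R
      have e : (2 + 2 : Fin 4) = 0 := rfl
      rw [e]
      linarith
    · show (‖p 3‖ + ‖p (3 + 2)‖) / 2 ≤ 2 * R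
      have e : (3 + 2 : Fin 4) = 1 := rfl
      rw [e]
      linarith
  have hv1 : ‖v 1‖ ≤ R := by
    refine (hvn 1).trans ?_
    have e : (1 + 2 : Fin 4) = 3 := rfl
    rw [e]
    linarith
  have hv3 : ‖v 3‖ ≤ R := by
    refine (hvn 3).trans ?_
    have e : (3 + 2 : Fin 4) = 1 := rfl
    rw [e]
    linarith
  have hsu : ‖sc u s‖ ≤ 2 * R * u := by
    refine (norm_sc_le u hu s).trans ?_
    rw [mul_comm]
    exact mul_le_mul_of_nonneg_right hss hu0.le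
  have hcu : ‖((u⁻¹ : ℝ) : ℂ)‖ = u⁻¹ := by
    rw [Complex.norm_real, Real.norm_of_nonneg (by positivity)]
  have hvu : ‖sc u v‖ ≤ R / u := by
    rw [pi_norm_le_iff_of_nonneg (by positivity)]
    intro i
    fin_cases i
    · show ‖(u : ℂ) * v 0‖ ≤ R / u
      rw [hv00, mul_zero, norm_zero]
      positivity
    · show ‖((u⁻¹ : ℝ) : ℂ) * v 1‖ ≤ R / u
      rw [norm_mul, hcu, div_eq_inv_mul]
      exact mul_le_mul_of_nonneg_left hv1 (by positivity)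
    · show ‖(u : ℂ) * v 2‖ ≤ R / u
      rw [hv02, mul_zero, norm_zero]
      positivity
    · show ‖((u⁻¹ : ℝ) : ℂ) * v 3‖ ≤ R / u
      rw [norm_mul, hcu, div_eq_inv_mul]
      exact mul_le_mul_of_nonneg_left hv3 (by positivity)
  have him : |(Q (sc u s) (sc u v)).im| ≤ 2 * C * R ^ 2 := by
    refine (Complex.abs_im_le_norm _).trans ((h.qb _ _).trans ?_)
    have h5 : C * ‖sc u s‖ * ‖sc u v‖ ≤ C * (2 * R * u) * (R / u) := by
      refine mul_le_mul (mul_le_mul_of_nonneg_left hsu hC.le) hvu (norm_nonneg _) ?_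
      positivity
    refine h5.trans (le_of_eq ?_)
    field_simp
  have h6 := h.lines hC U hU (sc u s) (sc u v) (hs.sc u) (hv.sc u) (R / u) (by positivity) hvu
  have h7 : sc u p = sc u s + I • sc u v := by
    rw [hpe, sc_add, sc_smul]
  rw [h7]
  refine h6.trans (Real.exp_le_exp.2 ?_)
  linarith

end Pool.Agent.Helper98.TA
end

-- part XG2
section
/-!
# TA-XG2: the scaled function on a polydisc

For fixed `p 1, p 3` apply `ext_two` to `G z w = F (sc u ![z, p 1, w, p 3])`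
(`deg`: `sc u ![z, p 1, w, p 3] = Function.update (sc u ![z, p 1, 0, p 3]) 2 (u w)`; compose the
polynomial with `u X`); `plane_one` for `![z, p 1, conj z, p 3]`, `‖z‖ ≤ 2 R`;
`F = Fn * exp (Q / 2)` and `‖Q (sc u p) (sc u p) / 2‖ ≤ C (2 R u) ^ 2 / 2` (`norm_sc_le`).
-/


namespace Pool.Agent.Helper98.TA

open Complex

variable {ρ₀ C A : ℝ} {D T : ℕ} {Q : (Fin 4 → ℂ) →ₗ[ℂ] (Fin 4 → ℂ) →ₗ[ℂ] ℂ}
  {F : (Fin 4 → ℂ) → ℂ}

private theorem XG2_sc (u : ℝ) (a b c d : ℂ) :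
    sc u ![a, b, c, d] = ![(u : ℂ) * a, ((u⁻¹ : ℝ) : ℂ) * b, (u : ℂ) * c, ((u⁻¹ : ℝ) : ℂ) * d] :=
  rfl

private theorem XG2_F_le (h : XData ρ₀ C A D T Q F) (hC : 0 < C) (s : Fin 4 → ℂ) (b : ℝ)
    (hs : ‖s‖ ≤ b) : ‖F s‖ ≤ ‖Fn Q F s‖ * Real.exp (C * b ^ 2 / 2) := by
  have e1 : F s = Fn Q F s * cexp ((Q s s) / 2) := by
    unfold Fn
    rw [mul_assoc, ← Complex.exp_add]
    have : -(Q s s) / 2 + (Q s s) / 2 = 0 := by ring
    rw [this, Complex.exp_zero, mul_one]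
  rw [e1, norm_mul]
  refine mul_le_mul_of_nonneg_left ?_ (norm_nonneg _)
  rw [Complex.norm_exp]
  apply Real.exp_le_exp.2
  have hb : 0 ≤ b := (norm_nonneg s).trans hs
  calc ((Q s s) / 2).re ≤ ‖(Q s s) / 2‖ := Complex.re_le_norm _
    _ = ‖Q s s‖ / 2 := by rw [norm_div, Complex.norm_ofNat]
    _ ≤ C * b ^ 2 / 2 := by
      have h1 := h.qb s s
      have h2 : C * ‖s‖ * ‖s‖ ≤ C * b ^ 2 := by
        have h3 : ‖s‖ * ‖s‖ ≤ b * b := mul_le_mul hs hs (norm_nonneg _) hb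
        nlinarith
      linarith

theorem XData.plane_two (h : XData ρ₀ C A D T Q F) (hC : 0 < C) (U : ℝ)
    (hU : ∀ s, RealPt s → ‖Fn Q F s‖ ≤ Real.exp (-U)) (u R : ℝ) (hu : 1 ≤ u) (hR : 0 < R)
    (p : Fin 4 → ℂ) (hp : ‖p‖ ≤ R) :
    ‖F (sc u p)‖ ≤ 20 ^ D *
      Real.exp (-U + 2 * √(C * (R / u) ^ 2 * (U + A)) + 2 * C * (R / u) ^ 2 + 2 * C * R ^ 2 +
        2 * C * u ^ 2 * R ^ 2) := by
  have hu0 : (0 : ℝ) < u := by linarith
  have hp0 : ∀ i, ‖p i‖ ≤ R := fun i => (norm_le_pi_norm p i).trans hp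
  obtain ⟨G, hG⟩ : ∃ G : ℂ → ℂ → ℂ, G = fun z w => F (sc u ![z, p 1, w, p 3]) := ⟨_, rfl⟩
  have hpeq : ![p 0, p 1, p 2, p 3] = p := by
    funext i
    fin_cases i <;> rfl
  have hGd : ∀ w, Differentiable ℂ fun z => G z w := by
    intro w
    rw [hG]
    refine h.diff.comp ?_
    rw [differentiable_pi]
    intro i
    fin_cases i
    · exact (differentiable_const (u : ℂ)).mul differentiable_id
    · exact differentiable_const (((u⁻¹ : ℝ) : ℂ) * p 1)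
    · exact differentiable_const ((u : ℂ) * w)
    · exact differentiable_const (((u⁻¹ : ℝ) : ℂ) * p 3)
  have hdeg : ∀ z, ∃ P : Polynomial ℂ, P.natDegree ≤ D ∧ ∀ w, G z w = P.eval w := by
    intro z
    obtain ⟨P, hP, hPe⟩ := h.deg (sc u ![z, p 1, 0, p 3])
    refine ⟨P.comp (Polynomial.C (u : ℂ) * Polynomial.X), ?_, fun w => ?_⟩
    · refine Polynomial.natDegree_comp_le.trans ?_
      have h1 : (Polynomial.C (u : ℂ) * Polynomial.X).natDegree ≤ 1 :=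
        (Polynomial.natDegree_C_mul_le _ _).trans Polynomial.natDegree_X_le
      calc P.natDegree * (Polynomial.C (u : ℂ) * Polynomial.X).natDegree ≤ P.natDegree * 1 :=
            Nat.mul_le_mul_left _ h1
        _ ≤ D := by rw [mul_one]; exact hP
    · rw [Polynomial.eval_comp, Polynomial.eval_mul, Polynomial.eval_C, Polynomial.eval_X, ← hPe,
        hG]
      simp only
      congr 1
      funext i
      fin_cases i
      · rfl
      · rfl
      · rfl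
      · rfl
  have hB : ∀ z, ‖z‖ ≤ 2 * R → ‖G z ((starRingEnd ℂ) z)‖ ≤
      Real.exp (-U + 2 * √(C * (R / u) ^ 2 * (U + A)) + 2 * C * (R / u) ^ 2 + 2 * C * R ^ 2 +
        2 * C * u ^ 2 * R ^ 2) := by
    intro z hz
    have h1 := h.plane_one hC U hU u R hu hR ![z, p 1, (starRingEnd ℂ) z, p 3] rfl hz (hp0 1)
      (hp0 3)
    have hn : ‖![z, p 1, (starRingEnd ℂ) z, p 3]‖ ≤ 2 * R := by
      rw [pi_norm_le_iff_of_nonneg (by positivity)]
      intro i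
      fin_cases i
      · exact hz
      · exact (hp0 1).trans (by linarith)
      · change ‖(starRingEnd ℂ) z‖ ≤ 2 * R
        rw [RCLike.norm_conj]
        exact hz
      · exact (hp0 3).trans (by linarith)
    have hn2 : ‖sc u ![z, p 1, (starRingEnd ℂ) z, p 3]‖ ≤ u * (2 * R) :=
      (norm_sc_le u hu _).trans (mul_le_mul_of_nonneg_left hn hu0.le)
    have h2 := XG2_F_le h hC _ _ hn2
    rw [hG]
    simp only
    refine h2.trans ((mul_le_mul_of_nonneg_right h1 (Real.exp_pos _).le).trans ?_)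
    rw [← Real.exp_add]
    apply Real.exp_le_exp.2
    have e : C * (u * (2 * R)) ^ 2 / 2 = 2 * C * u ^ 2 * R ^ 2 := by ring
    rw [e]
  have h3 := ext_two G D hGd hdeg R _ hR hB (p 0) (p 2) (hp0 0) (hp0 2)
  rw [hG] at h3
  simp only [hpeq] at h3
  exact h3

end Pool.Agent.Helper98.TA
end

-- part XH1
section
/-!
# TA-XH1: the bound on the real points

Constants from `num_X`, `n` from `num_u` (`T₁` = the maximum of the two).  Suppose
`‖Fn z₁‖ > exp (- η T ^ 3)` for some real `z₁`.  `M` = supremum of `‖Fn‖` on the real points (bounded by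
`exp A`: `gr` with `v = 0`), `U = - log M < η T ^ 3`, and there is a real `z` with `‖Fn z‖ > M / 2`.
`per n z` gives a real `s` with `‖s‖ ≤ ρ₀` and `‖Fn (sc u s)‖ = ‖Fn z‖`, `u = (2 + √3) ^ n`.
`schwarz_ord` for `f ζ = F (ζ • sc u s) = F (sc u (ζ • s))`, `‖ζ‖ ≤ K`, `R = K ρ₀` (`plane_two`,
`ord`): `‖F (sc u s)‖ ≤ 20 ^ D exp (…) / K ^ T`, and
`‖Fn (sc u s)‖ ≤ ‖F (sc u s)‖ exp (C (u ρ₀) ^ 2 / 2)`.  Contradiction to `num_X`.
-/


namespace Pool.Agent.Helper98.TA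

open Complex

theorem X_real (ρ₀ C c : ℝ) (hρ : 0 < ρ₀) (hC : 0 < C) (hc : 0 < c) :
    ∃ η : ℝ, 0 < η ∧ ∃ T₁ : ℕ, ∀ (Q : (Fin 4 → ℂ) →ₗ[ℂ] (Fin 4 → ℂ) →ₗ[ℂ] ℂ)
      (F : (Fin 4 → ℂ) → ℂ) (A : ℝ) (D T : ℕ), T₁ ≤ T → A ≤ η * T ^ 3 → (D : ℝ) ≤ c * T →
      XData ρ₀ C A D T Q F → ∀ s, RealPt s → ‖Fn Q F s‖ ≤ Real.exp (-(η * T ^ 3)) := by
  obtain ⟨K, δ, η, hK, hδ, hη, T₁, hnum⟩ := num_X ρ₀ C c hρ hC hc
  obtain ⟨T₂, hu⟩ := num_u δ hδ
  refine ⟨η, hη, max T₁ T₂, ?_⟩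
  intro Q F A D T hT hA hD h s₀ hs₀
  by_contra hcon
  rw [not_le] at hcon
  obtain ⟨S, hS⟩ : ∃ S : Set ℝ, S = {x | ∃ s, RealPt s ∧ x = ‖Fn Q F s‖} := ⟨_, rfl⟩
  have h0 : RealPt (0 : Fin 4 → ℂ) := by
    constructor
    · simp
    · simp
  have hbd : ∀ s, RealPt s → ‖Fn Q F s‖ ≤ Real.exp A := by
    intro s hs
    have h1 := h.gr s 0 hs h0
    rw [smul_zero, add_zero, norm_zero, map_zero, Complex.zero_im] at h1
    refine h1.trans (le_of_eq ?_)
    congr 1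
    ring
  have hbdd : BddAbove S := by
    refine ⟨Real.exp A, ?_⟩
    intro x hx
    rw [hS] at hx
    obtain ⟨s, hs, rfl⟩ := hx
    exact hbd s hs
  have hmem : ∀ s, RealPt s → ‖Fn Q F s‖ ∈ S := by
    intro s hs
    rw [hS]
    exact ⟨s, hs, rfl⟩
  obtain ⟨M, hM⟩ : ∃ M : ℝ, M = sSup S := ⟨_, rfl⟩
  have hMle : ∀ s, RealPt s → ‖Fn Q F s‖ ≤ M := by
    intro s hs
    rw [hM]
    exact le_csSup hbdd (hmem s hs)
  have hM1 : Real.exp (-(η * T ^ 3)) < M := hcon.trans_le (hMle s₀ hs₀)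
  have hM0 : 0 < M := (Real.exp_pos _).trans hM1
  obtain ⟨U, hU⟩ : ∃ U : ℝ, U = -Real.log M := ⟨_, rfl⟩
  have hUM : Real.exp (-U) = M := by
    rw [hU, neg_neg, Real.exp_log hM0]
  have hU1 : U ≤ η * T ^ 3 := by
    have h1 := Real.log_lt_log (Real.exp_pos _) hM1
    rw [Real.log_exp] at h1
    rw [hU]
    linarith
  obtain ⟨x, hx, hx2⟩ : ∃ x ∈ S, M / 2 < x := by
    refine exists_lt_of_lt_csSup ⟨_, hmem s₀ hs₀⟩ ?_
    rw [← hM]
    linarith
  rw [hS] at hx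
  obtain ⟨z, hz, rfl⟩ := hx
  obtain ⟨n, hn1, hn2, hn3⟩ := hu T ((le_max_right _ _).trans hT)
  obtain ⟨z', hz', hzρ, hzF⟩ := h.per n z hz
  obtain ⟨u, hud⟩ : ∃ u : ℝ, u = (2 + √3) ^ n := ⟨_, rfl⟩
  rw [← hud] at hn1 hn2 hn3 hzF
  have hK0 : 0 < K := by linarith
  have hR0 : 0 < K * ρ₀ := by positivity
  have hu0 : 0 < u := by linarith
  have hUle : ∀ s, RealPt s → ‖Fn Q F s‖ ≤ Real.exp (-U) := by
    intro s hs
    rw [hUM]
    exact hMle s hs
  have hN := hnum T D A U u ((le_max_left _ _).trans hT) hA hU1 hD hn1 hn2 hn3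
  have hline : Differentiable ℂ (fun ζ : ℂ => F (ζ • sc u z')) :=
    h.diff.comp (differentiable_id.smul_const (sc u z'))
  have hsch := schwarz_ord (fun ζ : ℂ => F (ζ • sc u z')) hline T (h.ord (sc u z')) K
    (20 ^ D * Real.exp (-U + 2 * √(C * (K * ρ₀ / u) ^ 2 * (U + A)) + 2 * C * (K * ρ₀ / u) ^ 2 +
        2 * C * (K * ρ₀) ^ 2 + 2 * C * u ^ 2 * (K * ρ₀) ^ 2)) hK (by
      intro ζ hζ
      have h1 : ‖ζ • z'‖ ≤ K * ρ₀ := by
        rw [norm_smul]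
        exact mul_le_mul hζ hzρ (norm_nonneg _) hK0.le
      have h2 := h.plane_two hC U hUle u (K * ρ₀) hn1 hR0 (ζ • z') h1
      rw [sc_smul] at h2
      exact h2)
  have hsch' : ‖F (sc u z')‖ ≤ 20 ^ D * Real.exp (-U + 2 * √(C * (K * ρ₀ / u) ^ 2 * (U + A)) +
      2 * C * (K * ρ₀ / u) ^ 2 + 2 * C * (K * ρ₀) ^ 2 + 2 * C * u ^ 2 * (K * ρ₀) ^ 2) / K ^ T := by
    have h1 : (1 : ℂ) • sc u z' = sc u z' := one_smul _ _
    rw [← h1]
    exact hsch
  have hw : ‖sc u z'‖ ≤ u * ρ₀ :=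
    (norm_sc_le u hn1 z').trans (mul_le_mul_of_nonneg_left hzρ hu0.le)
  have hQ : ‖Q (sc u z') (sc u z')‖ ≤ C * u ^ 2 * ρ₀ ^ 2 := by
    refine (h.qb _ _).trans ?_
    have h1 : ‖sc u z'‖ * ‖sc u z'‖ ≤ (u * ρ₀) * (u * ρ₀) :=
      mul_le_mul hw hw (norm_nonneg _) (by positivity)
    calc C * ‖sc u z'‖ * ‖sc u z'‖ = C * (‖sc u z'‖ * ‖sc u z'‖) := by ring
      _ ≤ C * ((u * ρ₀) * (u * ρ₀)) := mul_le_mul_of_nonneg_left h1 hC.le
      _ = C * u ^ 2 * ρ₀ ^ 2 := by ring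
  have hexp : ‖cexp (-(Q (sc u z') (sc u z')) / 2)‖ ≤ Real.exp (C * u ^ 2 * ρ₀ ^ 2) := by
    rw [Complex.norm_exp]
    apply Real.exp_le_exp.2
    have h1 : (-(Q (sc u z') (sc u z')) / 2).re ≤ ‖-(Q (sc u z') (sc u z')) / 2‖ :=
      Complex.re_le_norm _
    have h2 : ‖-(Q (sc u z') (sc u z')) / 2‖ = ‖Q (sc u z') (sc u z')‖ / 2 := by
      rw [norm_div, norm_neg]
      norm_num
    have h3 : 0 ≤ ‖Q (sc u z') (sc u z')‖ := norm_nonneg _
    rw [h2] at h1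
    linarith
  have hfin : ‖Fn Q F (sc u z')‖ ≤ 20 ^ D * Real.exp (-U + 2 * √(C * (K * ρ₀ / u) ^ 2 * (U + A)) +
      2 * C * (K * ρ₀ / u) ^ 2 + 2 * C * (K * ρ₀) ^ 2 + 2 * C * u ^ 2 * (K * ρ₀) ^ 2) / K ^ T *
        Real.exp (C * u ^ 2 * ρ₀ ^ 2) := by
    unfold Fn
    rw [norm_mul]
    exact mul_le_mul hsch' hexp (norm_nonneg _) (by positivity)
  rw [hUM] at hN
  rw [hUM] at *
  linarith [hzF ▸ hfin]

end Pool.Agent.Helper98.TA
end

-- part XH2
section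
/-!
# TA-XH2: the bound for the derivatives at `0`

`X_real` and `num_d` (`η` is replaced by `η / 2`, `T₁` = the maximum, at least `1`).  For `‖z‖ ≤ 1`:
`decomp z`, `lines` with `b = 1`, `U = η T ^ 3`, `|(Q s v).im| ≤ C`, `F = Fn * exp (Q / 2)`,
`‖Q z z‖ ≤ C`; `cauchy_one` for `ζ ↦ F (ζ • z)`; `num_d`.  In general `z = ‖z‖ • z'`: `deriv_scale`;
`z = 0`: `T ≥ 1`.
-/


namespace Pool.Agent.Helper98.TA

open Complex

private theorem XH2_ball {ρ₀ C A : ℝ} {D T : ℕ} {Q : (Fin 4 → ℂ) →ₗ[ℂ] (Fin 4 → ℂ) →ₗ[ℂ] ℂ}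
    {F : (Fin 4 → ℂ) → ℂ} (h : XData ρ₀ C A D T Q F) (hC : 0 < C) (U : ℝ)
    (hU : ∀ s, RealPt s → ‖Fn Q F s‖ ≤ Real.exp (-U)) (z : Fin 4 → ℂ) (hz : ‖z‖ ≤ 1) :
    ‖F z‖ ≤ Real.exp (-U + 2 * √(C * (U + A)) + 3 * C) * Real.exp C := by
  obtain ⟨s, v, hs, hv, hzs, hsn, hvn, -⟩ := decomp z
  have hz1 : ∀ i, ‖z i‖ ≤ 1 := fun i => (norm_le_pi_norm z i).trans hz
  have hs1 : ‖s‖ ≤ 1 := by
    rw [pi_norm_le_iff_of_nonneg zero_le_one]
    intro i
    have h1 := hsn i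
    have h2 := hz1 i
    have h3 := hz1 (i + 2)
    linarith
  have hv1 : ‖v‖ ≤ 1 := by
    rw [pi_norm_le_iff_of_nonneg zero_le_one]
    intro i
    have h1 := hvn i
    have h2 := hz1 i
    have h3 := hz1 (i + 2)
    linarith
  have h1 := h.lines hC U hU s v hs hv 1 one_pos hv1
  rw [← hzs] at h1
  have h2 : |(Q s v).im| ≤ C := by
    have h3 := h.qb s v
    have h4 : C * ‖s‖ * ‖v‖ ≤ C := by
      have h5 : ‖s‖ * ‖v‖ ≤ 1 * 1 := mul_le_mul hs1 hv1 (norm_nonneg _) zero_le_one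
      nlinarith
    exact ((Complex.abs_im_le_norm _).trans h3).trans h4
  have h3 : ‖Fn Q F z‖ ≤ Real.exp (-U + 2 * √(C * (U + A)) + 3 * C) := by
    refine h1.trans (Real.exp_le_exp.2 ?_)
    rw [one_pow, mul_one, mul_one]
    linarith
  have e1 : F z = Fn Q F z * cexp ((Q z z) / 2) := by
    unfold Fn
    rw [mul_assoc, ← Complex.exp_add]
    have : -(Q z z) / 2 + (Q z z) / 2 = 0 := by ring
    rw [this, Complex.exp_zero, mul_one]
  rw [e1, norm_mul]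
  refine mul_le_mul h3 ?_ (norm_nonneg _) (Real.exp_pos _).le
  rw [Complex.norm_exp]
  apply Real.exp_le_exp.2
  calc ((Q z z) / 2).re ≤ ‖(Q z z) / 2‖ := Complex.re_le_norm _
    _ = ‖Q z z‖ / 2 := by rw [norm_div, Complex.norm_ofNat]
    _ ≤ C := by
      have h4 := h.qb z z
      have h5 : C * ‖z‖ * ‖z‖ ≤ C := by
        have h6 : ‖z‖ * ‖z‖ ≤ 1 * 1 := mul_le_mul hz hz (norm_nonneg _) zero_le_one
        nlinarith
      linarith

theorem X_main (ρ₀ C c : ℝ) (hρ : 0 < ρ₀) (hC : 0 < C) (hc : 0 < c) :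
    ∃ η : ℝ, 0 < η ∧ ∃ T₁ : ℕ, ∀ (Q : (Fin 4 → ℂ) →ₗ[ℂ] (Fin 4 → ℂ) →ₗ[ℂ] ℂ)
      (F : (Fin 4 → ℂ) → ℂ) (A : ℝ) (D T : ℕ), T₁ ≤ T → A ≤ η * T ^ 3 → (D : ℝ) ≤ c * T →
      XData ρ₀ C A D T Q F → ∀ z : Fin 4 → ℂ,
        ‖iteratedDeriv T (fun ζ : ℂ => F (ζ • z)) 0‖ ≤ ‖z‖ ^ T * Real.exp (-(η * T ^ 3)) := by
  obtain ⟨η, hη, T₁, hX⟩ := X_real ρ₀ C c hρ hC hc
  obtain ⟨T₂, hT₂⟩ := num_d C η hC hη
  refine ⟨η / 2, by positivity, max 1 (max T₁ T₂), fun Q F A D T hT hA hD h z => ?_⟩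
  have hT1 : 1 ≤ T := (le_max_left _ _).trans hT
  have hT2 : T₁ ≤ T := ((le_max_left _ _).trans (le_max_right _ _)).trans hT
  have hT3 : T₂ ≤ T := ((le_max_right _ _).trans (le_max_right _ _)).trans hT
  have hA' : A ≤ η * T ^ 3 := by
    have : 0 ≤ η * (T : ℝ) ^ 3 := by positivity
    linarith
  have hU := hX Q F A D T hT2 hA' hD h
  have hnum := hT₂ T A hT3 hA'
  -- the unit ball
  have hball : ∀ z : Fin 4 → ℂ, ‖z‖ ≤ 1 →
      ‖iteratedDeriv T (fun ζ : ℂ => F (ζ • z)) 0‖ ≤ Real.exp (-(η / 2 * T ^ 3)) := by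
    intro z hz
    have hd : Differentiable ℂ fun ζ : ℂ => F (ζ • z) :=
      h.diff.comp (differentiable_id.smul_const z)
    refine (cauchy_one _ hd T _ fun ζ hζ => ?_).trans hnum
    refine XH2_ball h hC (η * T ^ 3) hU _ ?_
    rw [norm_smul]
    calc ‖ζ‖ * ‖z‖ ≤ 1 * 1 := mul_le_mul hζ hz (norm_nonneg _) zero_le_one
      _ = 1 := one_mul 1
  rcases eq_or_ne z 0 with rfl | hz
  · have : (fun ζ : ℂ => F (ζ • (0 : Fin 4 → ℂ))) = fun _ => F 0 := by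
      funext ζ
      rw [smul_zero]
    rw [this, iteratedDeriv_const, if_neg (by omega), norm_zero]
    positivity
  · have hn : (0 : ℝ) < ‖z‖ := norm_pos_iff.2 hz
    have hz' : z = ((‖z‖ : ℝ) : ℂ) • (((‖z‖⁻¹ : ℝ) : ℂ) • z) := by
      rw [smul_smul, ← ofReal_mul, mul_inv_cancel₀ hn.ne', ofReal_one, one_smul]
    have h1 : ‖(((‖z‖⁻¹ : ℝ) : ℂ) • z)‖ ≤ 1 := by
      rw [norm_smul, Complex.norm_real, norm_inv, norm_norm, inv_mul_cancel₀ hn.ne']
    have h2 := deriv_scale F T ((‖z‖ : ℝ) : ℂ) (((‖z‖⁻¹ : ℝ) : ℂ) • z)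
    rw [← hz'] at h2
    rw [h2, norm_mul, norm_pow, Complex.norm_real, norm_norm]
    exact mul_le_mul_of_nonneg_left (hball _ h1) (by positivity)

end Pool.Agent.Helper98.TA
end

-- part XJ
section
/-!
# TA-XJ: the lattice

`sc_lat`: it is enough to treat `n = 1` (`sc_sc`): `ε = 2 + √3 = 2 - I - 2 I ρ`, so
`ε (x + y ρ) = ((2 - I) x + 2 I y) + (-2 I x + (2 + I) y) ρ` (`ρ ^ 2 = -1 - ρ`), and with `conj ρ` for `ρ`
(and `ρ` replaced by `conj ρ`) the factor `2 - √3 = (2 + √3)⁻¹`; the other two coordinates are the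
conjugates.
`cover`: `y = (z 0 - z 1) / (ρ - conj ρ)`, `x = z 0 - y ρ`; round `x` and `y` to Gaussian integers
(distance `≤ √2 / 2`).
`per_lat`: `z'' = sc (u⁻¹) z`, `u = (2 + √3) ^ n`, `κ` from `cover`, `z' = z'' - lat κ`;
`sc u z' = z - sc u (lat κ)`.
-/


namespace Pool.Agent.Helper98.TA

open Complex Pool.Agent.Helper49.TA

private theorem XJ_alg (s : ℂ) (hs : s ^ 2 = 3) (a b c d : ℂ) :
    (2 + s) * ((a + b * I) + (c + d * I) * (-1 / 2 + s / 2 * I)) =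
      ((2 * a + b - 2 * d) + (2 * b - a + 2 * c) * I) +
        ((2 * b + 2 * c - d) + (c + 2 * d - 2 * a) * I) * (-1 / 2 + s / 2 * I) := by
  have hI : I ^ 2 = -1 := Complex.I_sq
  linear_combination ((s * (a + b * I) - s * (c + d * I) / 2) + (-b + 2 * d) +
    (-2 * b + d) * (-1 / 2 + s / 2 * I)) * hI + (I * (c + d * I) / 2) * hs

private theorem XJ_inv : (2 + √3)⁻¹ = 2 - √3 := by
  have h3 : √3 * √3 = 3 := Real.mul_self_sqrt (by norm_num)
  refine inv_eq_of_mul_eq_one_right ?_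
  nlinarith

private theorem XJ_one (κ : Fin 4 → ℤ) : ∃ κ' : Fin 4 → ℤ, sc (2 + √3) (lat κ) = lat κ' := by
  have hs : ((√3 : ℝ) : ℂ) ^ 2 = 3 := by
    rw [← Complex.ofReal_pow, Real.sq_sqrt (by norm_num)]
    norm_num
  have hs' : (-((√3 : ℝ) : ℂ)) ^ 2 = 3 := by rw [neg_sq, hs]
  have hr : rho = -1 / 2 + ((√3 : ℝ) : ℂ) / 2 * I := by
    unfold rho
    push_cast
    ring
  have hr' : (starRingEnd ℂ) rho = -1 / 2 + (-((√3 : ℝ) : ℂ)) / 2 * I := by
    rw [hr]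
    simp only [map_add, map_mul, map_div₀, map_neg, map_one, map_ofNat, Complex.conj_ofReal,
      Complex.conj_I]
    ring
  have k1 := XJ_alg _ hs (κ 0) (κ 1) (κ 2) (κ 3)
  have k2 := XJ_alg _ hs' (κ 0) (κ 1) (κ 2) (κ 3)
  rw [← hr] at k1
  rw [← hr'] at k2
  have k3 := congrArg (starRingEnd ℂ) k1
  have k4 := congrArg (starRingEnd ℂ) k2
  refine ⟨![2 * κ 0 + κ 1 - 2 * κ 3, 2 * κ 1 - κ 0 + 2 * κ 2, 2 * κ 1 + 2 * κ 2 - κ 3,
    κ 2 + 2 * κ 3 - 2 * κ 0], ?_⟩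
  funext i
  unfold sc lat
  rw [XJ_inv]
  fin_cases i
  · simp only [Fin.zero_eta, Matrix.cons_val_zero, Matrix.cons_val_one, Matrix.cons_val]
    push_cast
    linear_combination k1
  · simp only [Fin.mk_one, Matrix.cons_val_zero, Matrix.cons_val_one, Matrix.cons_val]
    push_cast
    linear_combination k2
  · simp only [Fin.reduceFinMk, Matrix.cons_val_zero, Matrix.cons_val_one, Matrix.cons_val]
    rw [map_mul, map_add, map_ofNat, Complex.conj_ofReal] at k3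
    rw [Complex.ofReal_add, Complex.ofReal_ofNat, k3]
    push_cast
    rfl
  · simp only [Fin.reduceFinMk, Matrix.cons_val_zero, Matrix.cons_val_one, Matrix.cons_val]
    rw [map_mul, map_add, map_neg, map_ofNat, Complex.conj_ofReal] at k4
    rw [sub_eq_add_neg (2 : ℝ), Complex.ofReal_add, Complex.ofReal_neg, Complex.ofReal_ofNat, k4]
    push_cast
    rfl

theorem sc_lat (κ : Fin 4 → ℤ) (n : ℕ) :
    ∃ κ' : Fin 4 → ℤ, sc ((2 + √3) ^ n) (lat κ) = lat κ' := by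
  induction n with
  | zero => exact ⟨κ, by rw [pow_zero, sc_one]⟩
  | succ n ih =>
    obtain ⟨κ', h1⟩ := ih
    obtain ⟨κ'', h2⟩ := XJ_one κ'
    refine ⟨κ'', ?_⟩
    rw [pow_succ', ← sc_sc, h1, h2]

private theorem XJ_round (x : ℂ) : ∃ a b : ℤ, ‖x - (a + b * I)‖ ≤ 1 := by
  refine ⟨round x.re, round x.im, ?_⟩
  refine (Complex.norm_le_abs_re_add_abs_im _).trans ?_
  have h1 := abs_sub_round x.re
  have h2 := abs_sub_round x.im
  simp only [Complex.sub_re, Complex.add_re, Complex.intCast_re, Complex.mul_re, Complex.I_re,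
    mul_zero, Complex.intCast_im, Complex.I_im, mul_one, sub_self, add_zero, Complex.sub_im,
    Complex.add_im, Complex.mul_im, zero_add]
  linarith

theorem cover (z : Fin 4 → ℂ) (hz : RealPt z) : ∃ κ : Fin 4 → ℤ, ‖z - lat κ‖ ≤ 2 := by
  obtain ⟨y, hy⟩ : ∃ y : ℂ, y = (z 0 - z 1) / (rho - (starRingEnd ℂ) rho) := ⟨_, rfl⟩
  obtain ⟨x, hx⟩ : ∃ x : ℂ, x = z 0 - y * rho := ⟨_, rfl⟩
  have hr : rho - (starRingEnd ℂ) rho ≠ 0 := by
    intro h
    have h1 := congrArg Complex.im h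
    have h2 : rho.im = √3 / 2 := by simp [rho]
    rw [Complex.sub_im, Complex.conj_im, h2, Complex.zero_im] at h1
    have h3 : 0 < √3 := Real.sqrt_pos.2 (by norm_num)
    linarith
  have h0 : z 0 = x + y * rho := by rw [hx]; ring
  have h1 : z 1 = x + y * (starRingEnd ℂ) rho := by
    have h2 : y * (rho - (starRingEnd ℂ) rho) = z 0 - z 1 := by
      rw [hy, div_mul_cancel₀ _ hr]
    linear_combination h0 + h2
  have hn : ‖rho‖ = 1 := by
    rw [← sq_eq_sq₀ (norm_nonneg _) zero_le_one, ← Complex.normSq_eq_norm_sq, Complex.normSq_apply]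
    have h3 : √3 * √3 = 3 := Real.mul_self_sqrt (by norm_num)
    simp [rho]
    nlinarith
  have hn' : ‖(starRingEnd ℂ) rho‖ = 1 := by rw [Complex.norm_conj, hn]
  obtain ⟨a, b, hab⟩ := XJ_round x
  obtain ⟨c, d, hcd⟩ := XJ_round y
  have k0 : ‖z 0 - ((a + b * I) + (c + d * I) * rho)‖ ≤ 2 := by
    have h2 : z 0 - ((a + b * I) + (c + d * I) * rho) =
        (x - (a + b * I)) + (y - (c + d * I)) * rho := by rw [h0]; ring
    rw [h2]
    refine (norm_add_le _ _).trans ?_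
    rw [norm_mul, hn, mul_one]
    linarith
  have k1 : ‖z 1 - ((a + b * I) + (c + d * I) * (starRingEnd ℂ) rho)‖ ≤ 2 := by
    have h2 : z 1 - ((a + b * I) + (c + d * I) * (starRingEnd ℂ) rho) =
        (x - (a + b * I)) + (y - (c + d * I)) * (starRingEnd ℂ) rho := by rw [h1]; ring
    rw [h2]
    refine (norm_add_le _ _).trans ?_
    rw [norm_mul, hn', mul_one]
    linarith
  refine ⟨![a, b, c, d], ?_⟩
  rw [pi_norm_le_iff_of_nonneg (by norm_num)]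
  intro i
  fin_cases i
  · exact k0
  · exact k1
  · have h2 : (z - lat ![a, b, c, d]) 2 =
        (starRingEnd ℂ) (z 0 - ((a + b * I) + (c + d * I) * rho)) := by
      rw [map_sub, ← hz.1]
      rfl
    change ‖(z - lat ![a, b, c, d]) 2‖ ≤ 2
    rw [h2, Complex.norm_conj]
    exact k0
  · have h2 : (z - lat ![a, b, c, d]) 3 =
        (starRingEnd ℂ) (z 1 - ((a + b * I) + (c + d * I) * (starRingEnd ℂ) rho)) := by
      rw [map_sub, ← hz.2]
      rfl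
    change ‖(z - lat ![a, b, c, d]) 3‖ ≤ 2
    rw [h2, Complex.norm_conj]
    exact k1

theorem per_lat (Φ : (Fin 4 → ℂ) → ℂ) (h : ∀ κ z, IsR z → ‖Φ (z + lat κ)‖ = ‖Φ z‖) (n : ℕ)
    (z : Fin 4 → ℂ) (hz : RealPt z) : ∃ z' : Fin 4 → ℂ, RealPt z' ∧ ‖z'‖ ≤ 2 ∧
      ‖Φ (sc ((2 + √3) ^ n) z')‖ = ‖Φ z‖ := by
  have hp : ((2 + √3) ^ n : ℝ) ≠ 0 := by positivity
  have hz'' : RealPt (sc ((2 + √3) ^ n)⁻¹ z) := hz.sc _
  obtain ⟨κ, hκ⟩ := cover _ hz''
  obtain ⟨κ', hκ'⟩ := sc_lat κ n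
  have hl : ∀ κ, RealPt (lat κ) := fun κ => ⟨rfl, rfl⟩
  have hs : ∀ {x y : Fin 4 → ℂ}, RealPt x → RealPt y → RealPt (x - y) := by
    intro x y hx hy
    refine ⟨?_, ?_⟩
    · rw [Pi.sub_apply, Pi.sub_apply, map_sub, hx.1, hy.1]
    · rw [Pi.sub_apply, Pi.sub_apply, map_sub, hx.2, hy.2]
  refine ⟨sc ((2 + √3) ^ n)⁻¹ z - lat κ, hs hz'' (hl κ), hκ, ?_⟩
  have h1 : sc ((2 + √3) ^ n) (sc ((2 + √3) ^ n)⁻¹ z - lat κ) = z - lat κ' := by
    have h2 := sc_add ((2 + √3) ^ n) (sc ((2 + √3) ^ n)⁻¹ z - lat κ) (lat κ)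
    rw [sub_add_cancel, sc_sc, mul_inv_cancel₀ hp, sc_one, hκ'] at h2
    exact eq_sub_of_add_eq h2.symm
  rw [h1]
  have h2 := h κ' (z - lat κ') (hs hz (hl κ'))
  rw [sub_add_cancel] at h2
  exact h2.symm

end Pool.Agent.Helper98.TA
end

-- part XK
section
/-!
# TA-XK: the bilinear form

`Lf i` and `Ls i` are linear; for real points `Ls i v = conj (Lf i v)`; `hc (ta i)` is real.
`Qb_bound`: `‖Lf i s‖ ≤ c ‖s‖`, `‖Ls i v‖ ≤ c ‖v‖` (or any other way: finite dimension).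
-/


namespace Pool.Agent.Helper98.TA

open Complex Pool.Agent.Helper49.TA

private noncomputable def XKl (i : Fin 4) : (Fin 4 → ℂ) →ₗ[ℂ] ℂ where
  toFun := Lf i
  map_add' := by
    intro x y
    fin_cases i <;> simp [Lf] <;> ring
  map_smul' := by
    intro c x
    fin_cases i <;> simp [Lf] <;> ring

private noncomputable def XKs (i : Fin 4) : (Fin 4 → ℂ) →ₗ[ℂ] ℂ where
  toFun := Ls i
  map_add' := by
    intro x y
    fin_cases i <;> simp [Ls] <;> ring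
  map_smul' := by
    intro c x
    fin_cases i <;> simp [Ls] <;> ring

private theorem XK_conj (i : Fin 4) {v : Fin 4 → ℂ} (hv : IsR v) :
    Ls i v = (starRingEnd ℂ) (Lf i v) := by
  obtain ⟨h2, h3⟩ := hv
  have h0 : (starRingEnd ℂ) (v 2) = v 0 := by rw [h2, Complex.conj_conj]
  have h1 : (starRingEnd ℂ) (v 3) = v 1 := by rw [h3, Complex.conj_conj]
  have hc2 : (starRingEnd ℂ) 2 = 2 := Complex.conj_ofNat 2
  fin_cases i
  · simp [Lf, Ls, h2, h3]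
  · simp [Lf, Ls, h2, h3]
  · simp [Lf, Ls, h2, h3, hc2]
  · simp [Lf, Ls, h2, h3, hc2]
    ring

theorem exists_Qb : ∃ Q : (Fin 4 → ℂ) →ₗ[ℂ] (Fin 4 → ℂ) →ₗ[ℂ] ℂ, ∃ C : ℝ, 0 < C ∧
    (∀ s v, ‖Q s v‖ ≤ C * ‖s‖ * ‖v‖) ∧ (∀ z, Q z z = Qf z) ∧
    (∀ s v, IsR s → IsR v → (Q s v).im = Xf s v) ∧ ∀ v, IsR v → (Q v v).im = 0 := by
  let Q : (Fin 4 → ℂ) →ₗ[ℂ] (Fin 4 → ℂ) →ₗ[ℂ] ℂ :=
    LinearMap.mk₂ ℂ (fun s v => ∑ i, (hc (ta i) : ℂ) * XKl i s * XKs i v)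
      (by
        intro a b v
        rw [← Finset.sum_add_distrib]
        exact Finset.sum_congr rfl fun i _ => by rw [map_add]; ring)
      (by
        intro c a v
        rw [smul_eq_mul, Finset.mul_sum]
        exact Finset.sum_congr rfl fun i _ => by rw [map_smul, smul_eq_mul]; ring)
      (by
        intro a b v
        rw [← Finset.sum_add_distrib]
        exact Finset.sum_congr rfl fun i _ => by rw [map_add]; ring)
      (by
        intro c a v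
        rw [smul_eq_mul, Finset.mul_sum]
        exact Finset.sum_congr rfl fun i _ => by rw [map_smul, smul_eq_mul]; ring)
  have hQ : ∀ s v, Q s v = ∑ i, (hc (ta i) : ℂ) * Lf i s * Ls i v := fun _ _ => rfl
  have hb1 : ∀ i (s : Fin 4 → ℂ), ‖Lf i s‖ ≤ ‖LinearMap.toContinuousLinearMap (XKl i)‖ * ‖s‖ :=
    fun i s => (LinearMap.toContinuousLinearMap (XKl i)).le_opNorm s
  have hb2 : ∀ i (s : Fin 4 → ℂ), ‖Ls i s‖ ≤ ‖LinearMap.toContinuousLinearMap (XKs i)‖ * ‖s‖ :=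
    fun i s => (LinearMap.toContinuousLinearMap (XKs i)).le_opNorm s
  refine ⟨Q, (∑ i, ‖(hc (ta i) : ℂ)‖ * ‖LinearMap.toContinuousLinearMap (XKl i)‖ *
    ‖LinearMap.toContinuousLinearMap (XKs i)‖) + 1, by positivity, ?_, ?_, ?_, ?_⟩
  · intro s v
    rw [hQ]
    refine (norm_sum_le _ _).trans ?_
    have h1 : ∀ i ∈ (Finset.univ : Finset (Fin 4)), ‖(hc (ta i) : ℂ) * Lf i s * Ls i v‖ ≤
        ‖(hc (ta i) : ℂ)‖ * ‖LinearMap.toContinuousLinearMap (XKl i)‖ *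
          ‖LinearMap.toContinuousLinearMap (XKs i)‖ * (‖s‖ * ‖v‖) := by
      intro i _
      rw [norm_mul, norm_mul]
      calc ‖(hc (ta i) : ℂ)‖ * ‖Lf i s‖ * ‖Ls i v‖
          ≤ ‖(hc (ta i) : ℂ)‖ * (‖LinearMap.toContinuousLinearMap (XKl i)‖ * ‖s‖) *
            (‖LinearMap.toContinuousLinearMap (XKs i)‖ * ‖v‖) := by
            apply mul_le_mul _ (hb2 i v) (norm_nonneg _) (by positivity)
            exact mul_le_mul_of_nonneg_left (hb1 i s) (norm_nonneg _)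
        _ = _ := by ring
    refine (Finset.sum_le_sum h1).trans ?_
    rw [← Finset.sum_mul, add_mul, one_mul, add_mul, mul_assoc]
    have h2 : 0 ≤ ‖s‖ * ‖v‖ := by positivity
    linarith
  · intro z
    rw [hQ]
    rfl
  · intro s v _ hv
    rw [hQ, Complex.im_sum]
    unfold Xf
    refine Finset.sum_congr rfl fun i _ => ?_
    rw [XK_conj i hv, mul_assoc, Complex.im_ofReal_mul]
  · intro v hv
    rw [hQ, Complex.im_sum]
    refine Finset.sum_eq_zero fun i _ => ?_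
    rw [XK_conj i hv, mul_assoc, Complex.im_ofReal_mul, Complex.mul_conj, Complex.ofReal_im,
      mul_zero]

end Pool.Agent.Helper98.TA
end

-- part XT
section
/-!
# TA-XT: the target of block X

`exists_Qb`, `C = max C₁ C_Q`, `ρ₀ = 2`, `c = 1 / c₀`, `X_main`; `Φ = Fn Q F`; `deg`: the polynomial
`∑ j ≤ D, C (G j z) X ^ j`; `per`: `per_lat`.  `T! ≥ 1`.
-/


namespace Pool.Agent.Helper98.TA

open Complex Pool.Agent.Helper49.TA

theorem X_target (C₁ c₀ : ℝ) (hC₁ : 1 ≤ C₁) (hc₀ : 0 < c₀) : ∃ η T₀ : ℝ, 0 < η ∧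
    ∀ (F Φ : (Fin 4 → ℂ) → ℂ) (A : ℝ) (D T : ℕ),
      Differentiable ℂ F → (∀ z, Φ z = F z * cexp (-(Qf z) / 2)) →
      (∀ κ z, IsR z → ‖Φ (z + lat κ)‖ = ‖Φ z‖) →
      (∀ s v, IsR s → IsR v → ‖Φ (s + I • v)‖ ≤ Real.exp (A + C₁ * ‖v‖ ^ 2 + Xf s v)) →
      (∃ G : ℕ → (Fin 4 → ℂ) → ℂ, (∀ j, Differentiable ℂ (G j)) ∧
        (∀ j z w, G j (Function.update z 2 w) = G j z) ∧
        ∀ z, F z = ∑ j ∈ Finset.range (D + 1), G j z * z 2 ^ j) →
      (∀ m < T, ∀ z, dl m F z = 0) →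
      c₀ * D ≤ T → T₀ ≤ T → A ≤ η * T ^ 3 →
      ∀ z, ‖dl T F z‖ ≤ T.factorial * ‖z‖ ^ T * Real.exp (-η * T ^ 3) := by
  obtain ⟨Q, CQ, hCQ, hQb, hQq, hQx, hQr⟩ := exists_Qb
  have hC : 0 < max C₁ CQ := lt_max_of_lt_right hCQ
  obtain ⟨η, hη, T₁, hX⟩ := X_main 2 (max C₁ CQ) (1 / c₀) (by norm_num) hC (by positivity)
  refine ⟨η, T₁, hη, ?_⟩
  intro F Φ A D T hF hΦ hper hgr hG hord hD hT hA z
  have hFn : ∀ z, Fn Q F z = Φ z := by
    intro z
    rw [hΦ z, Fn, hQq]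
  have hFnF : Fn Q F = Φ := funext hFn
  have hT' : T₁ ≤ T := by exact_mod_cast hT
  have hD' : (D : ℝ) ≤ 1 / c₀ * T := by
    rw [one_div, ← div_eq_inv_mul, le_div_iff₀ hc₀, mul_comm]
    exact hD
  have hdata : XData 2 (max C₁ CQ) A D T Q F := by
    refine ⟨hF, ?_, ?_, ?_, ?_, ?_, ?_⟩
    · intro z
      obtain ⟨G, -, hG2, hG3⟩ := hG
      refine ⟨∑ j ∈ Finset.range (D + 1), Polynomial.C (G j z) * Polynomial.X ^ j, ?_, ?_⟩
      · refine Polynomial.natDegree_sum_le_of_forall_le _ _ fun j hj => ?_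
        exact (Polynomial.natDegree_C_mul_X_pow_le _ _).trans
          (Nat.lt_succ_iff.1 (Finset.mem_range.1 hj))
      · intro w
        rw [hG3, Polynomial.eval_finsetSum]
        refine Finset.sum_congr rfl fun j _ => ?_
        rw [hG2, Function.update_self]
        simp
    · intro s v
      refine (hQb s v).trans ?_
      have h1 : CQ ≤ max C₁ CQ := le_max_right _ _
      have h2 : 0 ≤ ‖s‖ * ‖v‖ := by positivity
      nlinarith
    · intro v hv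
      exact hQr v hv
    · intro n z hz
      rw [hFnF]
      exact per_lat Φ hper n z hz
    · intro s v hs hv
      rw [hFnF, hQx s v hs hv]
      refine (hgr s v hs hv).trans (Real.exp_le_exp.2 ?_)
      have h1 : C₁ ≤ max C₁ CQ := le_max_left _ _
      have h2 : 0 ≤ ‖v‖ ^ 2 := by positivity
      nlinarith
    · intro z m hm
      exact hord m hm z
  have h1 := hX Q F A D T hT' hA hD' hdata z
  have h2 : ‖dl T F z‖ ≤ ‖z‖ ^ T * Real.exp (-(η * T ^ 3)) := h1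
  have h3 : (1 : ℝ) ≤ T.factorial := by exact_mod_cast Nat.factorial_pos T
  have h4 : 0 ≤ ‖z‖ ^ T * Real.exp (-(η * T ^ 3)) := by positivity
  rw [neg_mul, mul_assoc]
  nlinarith

end Pool.Agent.Helper98.TA
end
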